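import Pool.Agent.H.MP_ac3185_nt.V4.Local

/-! The class condition in a quadratic extension. -/

set_option autoImplicit false

open NumberField IsDedekindDomain
open scoped Pointwise

namespace Pool.Agent.H.MP_ac3185_nt

universe u

section fix

variable {K : Type u} [Field K]

theorem v4q_fix_mul {S : Subgroup (AlgebraicClosure K ≃ₐ[K] AlgebraicClosure K)}
    {a b : AlgebraicClosure K} (ha : FixG S a) (hb : FixG S b) : FixG S (a * b) := fun s hs => by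
  rw [map_mul, ha s hs, hb s hs]

theorem v4q_fix_div {S : Subgroup (AlgebraicClosure K ≃ₐ[K] AlgebraicClosure K)}
    {a b : AlgebraicClosure K} (ha : FixG S a) (hb : FixG S b) : FixG S (a / b) := fun s hs => by
  rw [map_div₀, ha s hs, hb s hs]

theorem v4q_fix_one {S : Subgroup (AlgebraicClosure K ≃ₐ[K] AlgebraicClosure K)} :
    FixG S (1 : AlgebraicClosure K) := fun s _ => map_one s

theorem v4q_fix_add {S : Subgroup (AlgebraicClosure K ≃ₐ[K] AlgebraicClosure K)}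
    {a b : AlgebraicClosure K} (ha : FixG S a) (hb : FixG S b) : FixG S (a + b) := fun s hs => by
  rw [map_add, ha s hs, hb s hs]

theorem v4q_fix_pow {S : Subgroup (AlgebraicClosure K ≃ₐ[K] AlgebraicClosure K)}
    {a : AlgebraicClosure K} (ha : FixG S a) (n : ℕ) : FixG S (a ^ n) := fun s hs => by
  rw [map_pow, ha s hs]

theorem v4q_fix_mono {S T : Subgroup (AlgebraicClosure K ≃ₐ[K] AlgebraicClosure K)} (h : S ≤ T)
    {a : AlgebraicClosure K} (ha : FixG T a) : FixG S a := fun s hs => ha s (h hs)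

variable {G' G : Subgroup (AlgebraicClosure K ≃ₐ[K] AlgebraicClosure K)}

theorem v4q_conj (hle : G' ≤ G) (h2 : IndexTwo G' G)
    {s g : AlgebraicClosure K ≃ₐ[K] AlgebraicClosure K} (hs : s ∈ G) (hg : g ∈ G') :
    s * g * s⁻¹ ∈ G' := by
  by_cases hs' : s ∈ G'
  · exact mul_mem (mul_mem hs' hg) (inv_mem hs')
  · by_contra hcon
    have h1 := h2 _ (mul_mem (mul_mem hs (hle hg)) (inv_mem hs)) s hs hcon hs'
    rw [inv_mul_cancel_right] at h1
    apply hs'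
    have h3 := mul_mem h1 (inv_mem hg)
    rwa [mul_inv_cancel_right] at h3

theorem v4q_conj' (hle : G' ≤ G) (h2 : IndexTwo G' G)
    {s g : AlgebraicClosure K ≃ₐ[K] AlgebraicClosure K} (hs : s ∈ G) (hg : g ∈ G') :
    s⁻¹ * g * s ∈ G' := by
  have h := v4q_conj hle h2 (G.inv_mem hs) hg
  rwa [inv_inv] at h

theorem v4q_sq (h2 : IndexTwo G' G) {s : AlgebraicClosure K ≃ₐ[K] AlgebraicClosure K}
    (hs : s ∈ G) : s * s ∈ G' := by
  by_cases hs' : s ∈ G'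
  · exact mul_mem hs' hs'
  · exact h2 s hs s hs hs' hs'

theorem v4q_coset (h2 : IndexTwo G' G) {σ s : AlgebraicClosure K ≃ₐ[K] AlgebraicClosure K}
    (hσ : σ ∈ G) (hσ' : σ ∉ G') (hs : s ∈ G) (hs' : s ∉ G') : σ⁻¹ * s ∈ G' :=
  h2 _ (G.inv_mem hσ) s hs (fun h => hσ' (by
    have h3 := G'.inv_mem h
    rwa [inv_inv] at h3)) hs'

/-- An element fixed by `G'` (resp. `Λ ∩ G'`) and by `σ` is fixed by `G` (resp. `Λ ∩ G`). -/
theorem v4q_fix_up (h2 : IndexTwo G' G) {σ : AlgebraicClosure K ≃ₐ[K] AlgebraicClosure K}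
    (Λ : Subgroup (AlgebraicClosure K ≃ₐ[K] AlgebraicClosure K)) (hσΛ : σ ∈ Λ)
    (hσ : σ ∈ G) (hσ' : σ ∉ G') {x : AlgebraicClosure K} (hx : FixG (Λ ⊓ G') x)
    (hx' : σ x = x) : FixG (Λ ⊓ G) x := by
  intro s hs
  by_cases hs' : s ∈ G'
  · exact hx s ⟨hs.1, hs'⟩
  · have h1 := hx (σ⁻¹ * s) ⟨Λ.mul_mem (Λ.inv_mem hσΛ) hs.1, v4q_coset h2 hσ hσ' hs.2 hs'⟩
    calc s x = σ ((σ⁻¹ * s) x) := by rw [← AlgEquiv.mul_apply, mul_inv_cancel_left]
      _ = x := by rw [h1, hx']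

theorem v4q_fix_up' (h2 : IndexTwo G' G) {σ : AlgebraicClosure K ≃ₐ[K] AlgebraicClosure K}
    (hσ : σ ∈ G) (hσ' : σ ∉ G') {x : AlgebraicClosure K} (hx : FixG G' x)
    (hx' : σ x = x) : FixG G x := by
  intro s hs
  by_cases hs' : s ∈ G'
  · exact hx s hs'
  · have h1 := hx (σ⁻¹ * s) (v4q_coset h2 hσ hσ' hs hs')
    calc s x = σ ((σ⁻¹ * s) x) := by rw [← AlgEquiv.mul_apply, mul_inv_cancel_left]
      _ = x := by rw [h1, hx']

/-- `σ x` is fixed by a group normalized by `σ` if `x` is. -/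
theorem v4q_fix_gal (S : Subgroup (AlgebraicClosure K ≃ₐ[K] AlgebraicClosure K))
    {σ : AlgebraicClosure K ≃ₐ[K] AlgebraicClosure K} (hσ : ∀ s ∈ S, σ⁻¹ * s * σ ∈ S)
    {x : AlgebraicClosure K} (hx : FixG S x) : FixG S (σ x) := by
  intro s hs
  have h1 := hx _ (hσ s hs)
  calc s (σ x) = σ ((σ⁻¹ * s * σ) x) := by
        rw [← AlgEquiv.mul_apply, ← AlgEquiv.mul_apply]
        congr 1
        group
    _ = σ x := by rw [h1]

/-- Hilbert 90 for a quadratic extension, up to sign. -/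
theorem v4q_hilbert {σ : AlgebraicClosure K ≃ₐ[K] AlgebraicClosure K}
    (S : Subgroup (AlgebraicClosure K ≃ₐ[K] AlgebraicClosure K))
    (hS : ∀ s ∈ S, σ⁻¹ * s * σ ∈ S) {γ : AlgebraicClosure K} (hγ : FixG S γ)
    (hσσ : σ (σ γ) = γ) (h1 : γ * σ γ = 1) :
    ∃ b : AlgebraicClosure K, b ≠ 0 ∧ FixG S b ∧ σ b * σ b = γ * γ * (b * b) := by
  by_cases h : 1 + σ γ = 0
  · have h3 : σ γ = -1 := (eq_neg_of_add_eq_zero_right h)
    have h4 : γ = -1 := by
      rw [h3] at h1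
      have h5 : -γ = 1 := by rw [← h1]; ring
      rw [← h5, neg_neg]
    refine ⟨1, one_ne_zero, v4q_fix_one, ?_⟩
    rw [h4, map_one]
    ring
  · refine ⟨1 + σ γ, h, v4q_fix_add v4q_fix_one (v4q_fix_gal S hS hγ), ?_⟩
    have h3 : σ (1 + σ γ) = γ * (1 + σ γ) := by
      rw [map_add, map_one, hσσ, mul_add, h1, mul_one]
      ring
    rw [h3]
    ring

end fix

section quad

variable {K : Type u} [Field K] [NumberField K] (L : IntermediateField K (AlgebraicClosure K))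
  [FiniteDimensional K L]

/-- An embedding in `P` which is real on the field given by `Λ ∩ G` is real on the field given by
`Λ ∩ G'`. -/
theorem v4q_real (G' G : Subgroup (AlgebraicClosure K ≃ₐ[K] AlgebraicClosure K)) (hle : G' ≤ G)
    (M : IntermediateField K (AlgebraicClosure K)) [FiniteDimensional K M]
    (hM : M.fixingSubgroup ≤ G') (e : AlgebraicClosure K →+* ℂ)
    (hP : ∀ s ∈ G, (∀ z, e (s z) = starRingEnd ℂ (e z)) → s ∈ G')
    (he : ∀ x, FixG (L.fixingSubgroup ⊓ G) x → starRingEnd ℂ (e x) = e x)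
    (x : AlgebraicClosure K) (hx : FixG (L.fixingSubgroup ⊓ G') x) :
    starRingEnd ℂ (e x) = e x := by
  have hfd : FiniteDimensional K (L ⊔ M : IntermediateField K (AlgebraicClosure K)) :=
    IntermediateField.finiteDimensional_sup L M
  obtain ⟨s, hs, hse⟩ := v4_conj (L.fixingSubgroup ⊓ G) (L ⊔ M)
    (by
      rw [IntermediateField.fixingSubgroup_sup]
      exact inf_le_inf_left _ (hM.trans hle)) e he
  have h1 := hx s ⟨hs.1, hP s hs.2 hse⟩
  rw [← hse, h1]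

/-- The class condition goes up in a quadratic extension. -/
theorem v4_quad (hodd : Odd (Module.finrank K L))
    (G' G : Subgroup (AlgebraicClosure K ≃ₐ[K] AlgebraicClosure K)) (hle : G' ≤ G)
    (h2 : IndexTwo G' G) (M : IntermediateField K (AlgebraicClosure K)) [FiniteDimensional K M]
    (hM : M.fixingSubgroup ≤ G') (hT : TransOn L G)
    (U : Set (Ideal (𝓞 (AlgebraicClosure K)))) (P : Set (AlgebraicClosure K →+* ℂ))
    (hUs : StableU U) (hPs : StableP P)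
    (hU : ∀ 𝔓 ∈ U, TransOn L (decompGrp K 𝔓 ⊓ G) ∨ ∀ s ∈ inertia K 𝔓, s ∈ G → s ∈ G')
    (hP : ∀ e ∈ P, ∀ s ∈ G, (∀ z, e (s z) = starRingEnd ℂ (e z)) → s ∈ G')
    (h : TrivSel L G U P) : TrivSel L G' U P := by
  by_cases hne : ∃ s ∈ G, s ∉ G'
  swap
  · push Not at hne
    have hGG : G' = G := le_antisymm hle hne
    rw [hGG]
    exact h
  obtain ⟨σ, hσL, hσG, hσG'⟩ := v4_sigma L hodd G G' hT h2 hne
  have hT' : TransOn L G' := by
    have h3 := v4_trans L hodd G G' hT h2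
    rwa [inf_eq_right.2 hle] at h3
  set Λ := L.fixingSubgroup with hΛ
  have hS : ∀ s ∈ Λ ⊓ G', σ⁻¹ * s * σ ∈ Λ ⊓ G' := fun s hs =>
    ⟨Λ.mul_mem (Λ.mul_mem (Λ.inv_mem hσL) hs.1) hσL, v4q_conj' hle h2 hσG hs.2⟩
  have hSG : ∀ s ∈ G', σ⁻¹ * s * σ ∈ G' := fun s hs => v4q_conj' hle h2 hσG hs
  have hσσ : ∀ x, FixG (Λ ⊓ G') x → σ (σ x) = x := fun x hx =>
    hx (σ * σ) ⟨mul_mem hσL hσL, v4q_sq h2 hσG⟩
  have hσσ' : ∀ x, FixG G' x → σ (σ x) = x := fun x hx => hx (σ * σ) (v4q_sq h2 hσG)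
  have hlow : ∀ x, FixG G' x → FixG (Λ ⊓ G') x := fun x hx => v4q_fix_mono inf_le_right hx
  -- the local conditions over `N'` and over `N`
  have hup : ∀ c d : AlgebraicClosure K, c ≠ 0 → FixG (Λ ⊓ G) c → FixG G d →
      normG L G c = d * d → (∀ 𝔓 ∈ U, UnrG (Λ ⊓ G') 𝔓 c) → ∀ 𝔓 ∈ U, UnrG (Λ ⊓ G) 𝔓 c := by
    intro c d hc0 hc hd hN hUc 𝔓 h𝔓
    rcases hU 𝔓 h𝔓 with h3 | h3
    · exact v4_local L hodd G' G hle h2 M hM hT 𝔓 h3 hc0 hc hd hN (hUc 𝔓 h𝔓)
    · intro s hs hsG z hz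
      exact hUc 𝔓 h𝔓 s hs ⟨hsG.1, h3 s hs hsG.2⟩ z hz
  rintro a ⟨ha0, ha, ⟨d', hd', hN'⟩, hUa, hPa⟩
  obtain ⟨r, hr⟩ := IsAlgClosed.exists_pow_nat_eq a (n := 2) two_pos
  have hr : r * r = a := by rw [← hr, sq]
  have hr0 : r ≠ 0 := by
    rintro rfl
    exact ha0 (by rw [← hr, mul_zero])
  have hσa0 : σ a ≠ 0 := by
    rw [map_ne_zero]
    exact ha0
  have hrfix : ∀ 𝔓 ∈ U, ∀ s ∈ inertia K 𝔓, s ∈ Λ ⊓ G' → s r = r := fun 𝔓 h𝔓 s hs hs' =>
    hUa 𝔓 h𝔓 s hs hs' r hr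
  have hd'0 : d' ≠ 0 := by
    rintro rfl
    exact v4_norm_ne L G' ha0 (by rw [hN', mul_zero])
  -- first step: `a σ(a)`
  have hσa : FixG (Λ ⊓ G') (σ a) := v4q_fix_gal _ hS ha
  have ha1 : FixG (Λ ⊓ G) (a * σ a) := by
    refine v4q_fix_up h2 Λ hσL hσG hσG' (v4q_fix_mul ha hσa) ?_
    rw [map_mul, hσσ a ha, mul_comm]
  have hd1 : FixG G (d' * σ d') := by
    refine v4q_fix_up' h2 hσG hσG' (v4q_fix_mul hd' (v4q_fix_gal _ hSG hd')) ?_
    rw [map_mul, hσσ' d' hd', mul_comm]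
  have hN1 : normG L G (a * σ a) = d' * σ d' * (d' * σ d') := by
    rw [← v4_norm_le L G G' hle hT' ha1, v4_norm_mul, v4_norm_conj L G' hT' hσL hSG
      (fun g hg => v4q_conj hle h2 hσG hg) ha, hN', map_mul]
    ring
  have hU1 : ∀ 𝔓 ∈ U, UnrG (Λ ⊓ G') 𝔓 (a * σ a) := by
    intro 𝔓 h𝔓 s hs hs' z hz
    have e1 : s r = r := hrfix 𝔓 h𝔓 s hs hs'
    have e2 : (σ⁻¹ * s * σ) r = r := by
      refine hrfix (σ⁻¹ • 𝔓) (hUs σ⁻¹ 𝔓 h𝔓) _ ?_ (hS s hs')
      rw [inertia_smul, inv_inv]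
      have e3 : σ * (σ⁻¹ * s * σ) * σ⁻¹ = s := by group
      rw [e3]
      exact hs
    have e4 : s (σ r) = σ r := by
      calc s (σ r) = σ ((σ⁻¹ * s * σ) r) := by
            rw [← AlgEquiv.mul_apply, ← AlgEquiv.mul_apply]
            congr 1
            group
        _ = σ r := by rw [e2]
    have e5 : z * z = (r * σ r) * (r * σ r) := by
      rw [hz, ← hr, map_mul]
      ring
    rcases mul_self_eq_mul_self_iff.1 e5 with e6 | e6
    · rw [e6, map_mul, e1, e4]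
    · rw [e6, map_neg, map_mul, e1, e4]
  have hreal : ∀ e ∈ P, (∀ x, FixG (Λ ⊓ G) x → starRingEnd ℂ (e x) = e x) →
      ∀ x, FixG (Λ ⊓ G') x → starRingEnd ℂ (e x) = e x := fun e he hx =>
    v4q_real L G' G hle M hM e (hP e he) hx
  have hpa : ∀ e ∈ P, (∀ x, FixG (Λ ⊓ G') x → starRingEnd ℂ (e x) = e x) →
      ∃ t : ℝ, 0 < t ∧ e (σ a) = t := by
    intro e he hx
    exact hPa (e.comp (σ : AlgebraicClosure K →+* AlgebraicClosure K)) (hPs σ e he)
      (fun x hx' => hx (σ x) (v4q_fix_gal _ hS hx'))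
  obtain ⟨e1, he1, hae⟩ := h (a * σ a) ⟨mul_ne_zero ha0 hσa0, ha1, ⟨_, hd1, hN1⟩,
    hup _ _ (mul_ne_zero ha0 hσa0) ha1 hd1 hN1 hU1, fun e he hx => by
      obtain ⟨t, ht, hte⟩ := hPa e he (hreal e he hx)
      obtain ⟨t', ht', hte'⟩ := hpa e he (hreal e he hx)
      exact ⟨t * t', mul_pos ht ht', by rw [map_mul, hte, hte', Complex.ofReal_mul]⟩⟩
  -- Hilbert 90
  have he10 : e1 ≠ 0 := by
    rintro rfl
    exact mul_ne_zero ha0 hσa0 (by rw [hae, mul_zero])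
  have he1' : FixG (Λ ⊓ G') e1 := v4q_fix_mono (inf_le_inf_left _ hle) he1
  have hσe1 : σ e1 = e1 := he1 σ ⟨hσL, hσG⟩
  have hγ : FixG (Λ ⊓ G') (e1 / a) := v4q_fix_div he1' ha
  have hγσ : σ (e1 / a) = e1 / σ a := by rw [map_div₀, hσe1]
  obtain ⟨b, hb0, hb, hσb⟩ := v4q_hilbert (Λ ⊓ G') hS hγ (hσσ _ hγ) (by
    rw [hγσ, div_mul_div_comm, ← hae, div_self (mul_ne_zero ha0 hσa0)])
  have hσb0 : σ b ≠ 0 := by
    rw [map_ne_zero]
    exact hb0
  have ha0' : FixG (Λ ⊓ G) (a / (b * b)) := by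
    refine v4q_fix_up h2 Λ hσL hσG hσG' (v4q_fix_div ha (v4q_fix_mul hb hb)) ?_
    rw [map_div₀, map_mul, hσb]
    have e2 : e1 / a * (e1 / a) = σ a / a := by
      rw [div_mul_div_comm, ← hae, mul_div_mul_left _ _ ha0]
    rw [e2]
    field_simp
  have hN0 : normG L G (a / (b * b)) = (d' / normG L G' b) * (d' / normG L G' b) := by
    rw [← v4_norm_le L G G' hle hT' ha0']
    have e3 := v4_norm_mul L G' (a / (b * b)) (b * b)
    rw [div_mul_cancel₀ _ (mul_ne_zero hb0 hb0), v4_norm_mul, hN'] at e3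
    have e4 := v4_norm_ne L G' hb0
    rw [div_mul_div_comm, eq_div_iff (mul_ne_zero e4 e4), e3]
  set d := d' / normG L G' b with hddef
  have hd : FixG G' d := v4q_fix_div hd' (v4_norm_fix L G' hT' hb)
  have hd0 : d ≠ 0 := div_ne_zero hd'0 (v4_norm_ne L G' hb0)
  have hab0 : a / (b * b) ≠ 0 := div_ne_zero ha0 (mul_ne_zero hb0 hb0)
  have hNfix : FixG G (normG L G (a / (b * b))) := v4_norm_fix L G hT ha0'
  have ha2 : FixG (Λ ⊓ G) (a / (b * b) * normG L G (a / (b * b))) :=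
    v4q_fix_mul ha0' (v4q_fix_mono inf_le_right hNfix)
  have hN2 : ∃ k : ℕ, normG L G (a / (b * b) * normG L G (a / (b * b))) =
      normG L G (a / (b * b)) ^ k * normG L G (a / (b * b)) ^ k := by
    obtain ⟨k, hk⟩ := hodd
    refine ⟨k + 1, ?_⟩
    rw [v4_norm_mul, v4_norm_pow L G hT hNfix, hk]
    ring
  obtain ⟨k, hk⟩ := hN2
  have h20 : a / (b * b) * normG L G (a / (b * b)) ≠ 0 :=
    mul_ne_zero hab0 (v4_norm_ne L G hab0)
  have hU2 : ∀ 𝔓 ∈ U, UnrG (Λ ⊓ G') 𝔓 (a / (b * b) * normG L G (a / (b * b))) := by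
    intro 𝔓 h𝔓 s hs hs' z hz
    have e1 : s r = r := hrfix 𝔓 h𝔓 s hs hs'
    have e5 : z * z = (r / b * d) * (r / b * d) := by
      rw [hz, hN0, ← hr]
      field_simp
    have e6 : s (r / b * d) = r / b * d := by
      rw [map_mul, map_div₀, e1, hb s hs', hd s hs'.2]
    rcases mul_self_eq_mul_self_iff.1 e5 with e7 | e7
    · rw [e7, e6]
    · rw [e7, map_neg, e6]
  obtain ⟨g, hg, hag⟩ := h (a / (b * b) * normG L G (a / (b * b)))
    ⟨h20, ha2, ⟨_, v4q_fix_pow hNfix k, hk⟩,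
      hup _ _ h20 ha2 (v4q_fix_pow hNfix k) hk hU2, fun e he hx => by
        obtain ⟨t, ht, hte⟩ := hPa e he (hreal e he hx)
        obtain ⟨u, hu⟩ := Complex.conj_eq_iff_real.1 (hreal e he hx (d / b)
          (v4q_fix_div (hlow d hd) hb))
        have hu0 : u ≠ 0 := by
          rintro rfl
          rw [Complex.ofReal_zero, map_eq_zero] at hu
          exact div_ne_zero hd0 hb0 hu
        refine ⟨t * (u * u), mul_pos ht (mul_self_pos.2 hu0), ?_⟩
        have e7 : a / (b * b) * normG L G (a / (b * b)) = a * (d / b * (d / b)) := by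
          rw [hN0]
          field_simp
        rw [e7, map_mul, map_mul, hte, hu]
        push_cast
        rfl⟩
  refine ⟨g * (b / d), v4q_fix_mul (v4q_fix_mono (inf_le_inf_left _ hle) hg)
    (v4q_fix_div hb (hlow d hd)), ?_⟩
  have e8 : g * (b / d) * (g * (b / d)) = (g * g) * (b / d * (b / d)) := by ring
  rw [e8, ← hag, hN0]
  field_simp

end quad

end Pool.Agent.H.MP_ac3185_nt
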