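import Pool.Agent.H.MP_ac3185_nt.V4.Defs

/-! The relative norm. -/

set_option autoImplicit false

open NumberField IsDedekindDomain

namespace Pool.Agent.H.MP_ac3185_nt

universe u

variable {K : Type u} [Field K] [CharZero K] (L : IntermediateField K (AlgebraicClosure K))
  [FiniteDimensional K L] (G G' : Subgroup (AlgebraicClosure K ≃ₐ[K] AlgebraicClosure K))

omit [CharZero K] [FiniteDimensional K L] in
theorem v4_rep (hT : TransOn L G)
    (q : (AlgebraicClosure K ≃ₐ[K] AlgebraicClosure K) ⧸ L.fixingSubgroup) :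
    repG L G q ∈ G ∧
      (repG L G q : (AlgebraicClosure K ≃ₐ[K] AlgebraicClosure K) ⧸ L.fixingSubgroup) = q := by
  have h : ∃ g ∈ G,
      (g : (AlgebraicClosure K ≃ₐ[K] AlgebraicClosure K) ⧸ L.fixingSubgroup) = q := by
    obtain ⟨t, ht, hs⟩ := hT q.out
    refine ⟨t, ht, ?_⟩
    rw [QuotientGroup.eq.2 hs, QuotientGroup.out_eq']
  rw [repG, dif_pos h]
  exact h.choose_spec

omit [CharZero K] [FiniteDimensional K L] in
/-- The value of a representative in `G` does not depend on the representative. -/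
theorem v4_rep_apply (hT : TransOn L G) {a : AlgebraicClosure K}
    (ha : FixG (L.fixingSubgroup ⊓ G) a)
    (q : (AlgebraicClosure K ≃ₐ[K] AlgebraicClosure K) ⧸ L.fixingSubgroup)
    {g : AlgebraicClosure K ≃ₐ[K] AlgebraicClosure K} (hg : g ∈ G)
    (hq : (g : (AlgebraicClosure K ≃ₐ[K] AlgebraicClosure K) ⧸ L.fixingSubgroup) = q) :
    repG L G q a = g a := by
  obtain ⟨h1, h2⟩ := v4_rep L G hT q
  have h3 : g⁻¹ * repG L G q ∈ L.fixingSubgroup := QuotientGroup.eq.1 (hq.trans h2.symm)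
  have h4 : (g⁻¹ * repG L G q) a = a := ha _ ⟨h3, G.mul_mem (G.inv_mem hg) h1⟩
  have h5 : g ((g⁻¹ * repG L G q) a) = repG L G q a := by
    rw [← AlgEquiv.mul_apply, mul_inv_cancel_left]
  rw [← h5, h4]

omit [CharZero K] [FiniteDimensional K L] in
theorem v4_norm_prod
    [Fintype ((AlgebraicClosure K ≃ₐ[K] AlgebraicClosure K) ⧸ L.fixingSubgroup)]
    (a : AlgebraicClosure K) : normG L G a =
      ∏ q : (AlgebraicClosure K ≃ₐ[K] AlgebraicClosure K) ⧸ L.fixingSubgroup, repG L G q a :=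
  finprod_eq_prod_of_fintype _

theorem v4_norm_mul (a b : AlgebraicClosure K) :
    normG L G (a * b) = normG L G a * normG L G b := by
  have := vn_finiteIndex L
  let _ := L.fixingSubgroup.fintypeQuotientOfFiniteIndex
  rw [v4_norm_prod, v4_norm_prod, v4_norm_prod, ← Finset.prod_mul_distrib]
  exact Finset.prod_congr rfl fun q _ => map_mul _ _ _

theorem v4_norm_ne {a : AlgebraicClosure K} (ha : a ≠ 0) : normG L G a ≠ 0 := by
  have := vn_finiteIndex L
  let _ := L.fixingSubgroup.fintypeQuotientOfFiniteIndex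
  rw [v4_norm_prod, Finset.prod_ne_zero_iff]
  intro q _ h
  exact ha ((map_eq_zero_iff _ (repG L G q).injective).1 h)

theorem v4_norm_fix (hT : TransOn L G) {a : AlgebraicClosure K}
    (ha : FixG (L.fixingSubgroup ⊓ G) a) : FixG G (normG L G a) := by
  have := vn_finiteIndex L
  let _ := L.fixingSubgroup.fintypeQuotientOfFiniteIndex
  intro s hs
  rw [v4_norm_prod, map_prod]
  refine Fintype.prod_equiv (MulAction.toPerm s) _ _ fun q => ?_
  obtain ⟨h1, h2⟩ := v4_rep L G hT q
  rw [MulAction.toPerm_apply, v4_rep_apply L G hT ha (s • q) (G.mul_mem hs h1), AlgEquiv.mul_apply]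
  conv_rhs => rw [← h2]
  rfl

theorem v4_norm_pow (hT : TransOn L G) {a : AlgebraicClosure K} (ha : FixG G a) :
    normG L G a = a ^ Module.finrank K L := by
  have := vn_finiteIndex L
  let _ := L.fixingSubgroup.fintypeQuotientOfFiniteIndex
  rw [v4_norm_prod, Finset.prod_congr rfl (fun q _ => ha _ (v4_rep L G hT q).1),
    Finset.prod_const, Finset.card_univ, vn_card]

theorem v4_norm_le (hle : G' ≤ G) (hT : TransOn L G') {a : AlgebraicClosure K}
    (ha : FixG (L.fixingSubgroup ⊓ G) a) : normG L G' a = normG L G a := by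
  have := vn_finiteIndex L
  let _ := L.fixingSubgroup.fintypeQuotientOfFiniteIndex
  have hT' : TransOn L G := fun s => by
    obtain ⟨t, ht, h⟩ := hT s
    exact ⟨t, hle ht, h⟩
  rw [v4_norm_prod, v4_norm_prod]
  refine Finset.prod_congr rfl fun q _ => ?_
  obtain ⟨h1, h2⟩ := v4_rep L G' hT q
  exact (v4_rep_apply L G hT' ha q (hle h1) h2).symm

/-- The map `q ↦ σ⁻¹ • q` is a bijection, and `σ⁻¹ ρ(q) σ` represents `σ⁻¹ • q`. -/
theorem v4_norm_conj (hT : TransOn L G') {σ : AlgebraicClosure K ≃ₐ[K] AlgebraicClosure K}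
    (hσ : σ ∈ L.fixingSubgroup) (hn : ∀ g ∈ G', σ⁻¹ * g * σ ∈ G')
    (hn' : ∀ g ∈ G', σ * g * σ⁻¹ ∈ G') {a : AlgebraicClosure K}
    (ha : FixG (L.fixingSubgroup ⊓ G') a) : normG L G' (σ a) = σ (normG L G' a) := by
  have := vn_finiteIndex L
  let _ := L.fixingSubgroup.fintypeQuotientOfFiniteIndex
  rw [v4_norm_prod, v4_norm_prod, map_prod]
  refine Fintype.prod_equiv (MulAction.toPerm σ⁻¹) _ _ fun q => ?_
  obtain ⟨h1, h2⟩ := v4_rep L G' hT q
  have h3 : ((σ⁻¹ * repG L G' q * σ :
      AlgebraicClosure K ≃ₐ[K] AlgebraicClosure K) :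
      (AlgebraicClosure K ≃ₐ[K] AlgebraicClosure K) ⧸ L.fixingSubgroup) = σ⁻¹ • q := by
    conv_rhs => rw [← h2]
    have h4 : (σ⁻¹ • (repG L G' q : (AlgebraicClosure K ≃ₐ[K] AlgebraicClosure K) ⧸
        L.fixingSubgroup)) = ((σ⁻¹ * repG L G' q : AlgebraicClosure K ≃ₐ[K] AlgebraicClosure K) :
        (AlgebraicClosure K ≃ₐ[K] AlgebraicClosure K) ⧸ L.fixingSubgroup) := rfl
    rw [h4]
    exact QuotientGroup.mk_mul_of_mem _ hσ
  rw [MulAction.toPerm_apply, v4_rep_apply L G' hT ha (σ⁻¹ • q) (hn _ h1) h3]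
  have h5 : σ ((σ⁻¹ * repG L G' q * σ) a) = repG L G' q (σ a) := by
    rw [← AlgEquiv.mul_apply, ← AlgEquiv.mul_apply]
    congr 1
    group
  rw [h5]

theorem v4_norm_top (a : L) :
    normG L ⊤ (a : AlgebraicClosure K) = algebraMap K (AlgebraicClosure K) (Algebra.norm K a) := by
  have := vn_finiteIndex L
  let _ := L.fixingSubgroup.fintypeQuotientOfFiniteIndex
  have hT : TransOn L ⊤ := fun s => ⟨s, Subgroup.mem_top s, by
    rw [inv_mul_cancel]; exact L.fixingSubgroup.one_mem⟩
  rw [v4_norm_prod, vn_norm]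
  refine Finset.prod_congr rfl fun q _ => ?_
  refine v4_rep_apply L ⊤ hT ?_ q (Subgroup.mem_top _) (QuotientGroup.out_eq' q)
  intro s hs
  exact vn_fix L a.2 hs.1

/-- The product over the cosets of `Gal(Kbar/L) ∩ G` in `G`. -/
theorem v4_norm_index (hT : TransOn L G) {a : AlgebraicClosure K}
    (ha : FixG (L.fixingSubgroup ⊓ G) a) [(L.fixingSubgroup.subgroupOf G).FiniteIndex]
    (T : (L.fixingSubgroup.subgroupOf G).LeftTransversal) : vnProd T a = normG L G a := by
  have := vn_finiteIndex L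
  let _ := L.fixingSubgroup.fintypeQuotientOfFiniteIndex
  let _ := (L.fixingSubgroup.subgroupOf G).fintypeQuotientOfFiniteIndex
  have h0 : ∀ h : G, h ∈ L.fixingSubgroup.subgroupOf G → h • a = a := fun h hh =>
    ha (h : AlgebraicClosure K ≃ₐ[K] AlgebraicClosure K) ⟨Subgroup.mem_subgroupOf.1 hh, h.2⟩
  rw [vn_indep a h0 T, v4_norm_prod]
  refine Fintype.prod_bijective
    (fun q : G ⧸ L.fixingSubgroup.subgroupOf G => (((q.out : G) :
      AlgebraicClosure K ≃ₐ[K] AlgebraicClosure K) :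
      (AlgebraicClosure K ≃ₐ[K] AlgebraicClosure K) ⧸ L.fixingSubgroup)) ⟨?_, ?_⟩ _ _ ?_
  · intro p q h
    have h1 := QuotientGroup.eq.1 h
    have h2 : p.out⁻¹ * q.out ∈ L.fixingSubgroup.subgroupOf G := by
      rw [Subgroup.mem_subgroupOf]
      exact h1
    have h3 := QuotientGroup.eq.2 h2
    rwa [QuotientGroup.out_eq', QuotientGroup.out_eq'] at h3
  · intro Q
    obtain ⟨h1, h2⟩ := v4_rep L G hT Q
    refine ⟨((⟨repG L G Q, h1⟩ : G) : G ⧸ L.fixingSubgroup.subgroupOf G), ?_⟩
    refine Eq.trans ?_ h2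
    refine QuotientGroup.eq.2 ?_
    have h3 : (((⟨repG L G Q, h1⟩ : G) : G ⧸ L.fixingSubgroup.subgroupOf G).out)⁻¹ *
        (⟨repG L G Q, h1⟩ : G) ∈ L.fixingSubgroup.subgroupOf G := by
      rw [← QuotientGroup.eq, QuotientGroup.out_eq']
    exact Subgroup.mem_subgroupOf.1 h3
  · intro q
    exact (v4_rep_apply L G hT ha _ q.out.2 rfl).symm

/-- The norm of a square root; from `vn_orbit` (V/Norm) for the group `G` and its subgroup
`Gal(Kbar/L) ∩ G`, with the character given by `r`; the two products differ by a sign. -/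
theorem v4_norm_orbit (hT : TransOn L G) {r : AlgebraicClosure K} (hr0 : r ≠ 0)
    (hr : ∀ s ∈ L.fixingSubgroup, s ∈ G → s r = r ∨ s r = -r)
    {g : AlgebraicClosure K ≃ₐ[K] AlgebraicClosure K} (hg : g ∈ G)
    (h : ∀ x ∈ G, ∀ n : ℕ, x⁻¹ * g ^ n * x ∈ L.fixingSubgroup → (x⁻¹ * g ^ n * x) r = r) :
    g (normG L G r) = normG L G r := by
  classical
  have := vn_finiteIndex L
  have hne : ¬ (-r = r) := by
    intro h1
    have h2 : (2 : AlgebraicClosure K) * r = 0 := by
      rw [two_mul]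
      nth_rewrite 1 [← h1]
      exact neg_add_cancel r
    rcases mul_eq_zero.1 h2 with h3 | h3
    · exact two_ne_zero h3
    · exact hr0 h3
  have hr' : ∀ s : L.fixingSubgroup.subgroupOf G,
      ((s : G) : AlgebraicClosure K ≃ₐ[K] AlgebraicClosure K) r = r ∨
        ((s : G) : AlgebraicClosure K ≃ₐ[K] AlgebraicClosure K) r = -r := fun s =>
    hr _ (Subgroup.mem_subgroupOf.1 s.2) (s : G).2
  let χ : L.fixingSubgroup.subgroupOf G →* ℤˣ :=
    { toFun := fun s =>
        if ((s : G) : AlgebraicClosure K ≃ₐ[K] AlgebraicClosure K) r = r then 1 else -1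
      map_one' := by
        rw [if_pos]
        rfl
      map_mul' := by
        intro s t
        have h1 : (((s * t : L.fixingSubgroup.subgroupOf G) : G) :
            AlgebraicClosure K ≃ₐ[K] AlgebraicClosure K) r =
            ((s : G) : AlgebraicClosure K ≃ₐ[K] AlgebraicClosure K)
              (((t : G) : AlgebraicClosure K ≃ₐ[K] AlgebraicClosure K) r) := rfl
        rw [h1]
        rcases hr' s with hs | hs <;> rcases hr' t with ht | ht
        · rw [ht, hs]; simp
        · rw [ht, map_neg, hs]; simp [hne]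
        · rw [ht, hs]; simp [hne]
        · rw [ht, map_neg, hs, neg_neg]; simp [hne] }
  have hχ : ∀ s : L.fixingSubgroup.subgroupOf G,
      ((s : G) : AlgebraicClosure K ≃ₐ[K] AlgebraicClosure K) r = r → χ s = 1 := fun s hs =>
    if_pos hs
  have hχr : ∀ s : L.fixingSubgroup.subgroupOf G,
      (s : G) • r = (((χ s : ℤˣ) : ℤ) : AlgebraicClosure K) * r := by
    intro s
    have h1 : (s : G) • r = ((s : G) : AlgebraicClosure K ≃ₐ[K] AlgebraicClosure K) r := rfl
    rw [h1]
    rcases hr' s with hs | hs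
    · rw [hχ s hs, hs]; simp
    · have h2 : χ s = -1 := by
        have h3 : ¬ (((s : G) : AlgebraicClosure K ≃ₐ[K] AlgebraicClosure K) r = r) := by
          rw [hs]; exact hne
        exact if_neg h3
      rw [h2, hs]; simp
  have horb : ∀ T : (L.fixingSubgroup.subgroupOf G).LeftTransversal,
      (⟨g, hg⟩ : G) • vnProd T r = vnProd T r := fun T =>
    vn_orbit χ r hχr T ⟨g, hg⟩ (fun x n hx =>
      hχ _ (h (x : AlgebraicClosure K ≃ₐ[K] AlgebraicClosure K) x.2 n
        (Subgroup.mem_subgroupOf.1 hx)))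
  have T : (L.fixingSubgroup.subgroupOf G).LeftTransversal := default
  have hrr : FixG (L.fixingSubgroup ⊓ G) (r * r) := by
    intro s hs
    rw [map_mul]
    rcases hr s hs.1 hs.2 with h1 | h1
    · rw [h1]
    · rw [h1, neg_mul_neg]
  have hsq : vnProd T r * vnProd T r = normG L G r * normG L G r := by
    rw [← vn_prod_mul, v4_norm_index L G hT hrr T, v4_norm_mul]
  have ho := horb T
  have ho' : g (vnProd T r) = vnProd T r := ho
  rcases mul_self_eq_mul_self_iff.1 hsq with h1 | h1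
  · rw [← h1]; exact ho'
  · have h2 : normG L G r = - vnProd T r := by rw [h1, neg_neg]
    rw [h2, map_neg, ho']

/-- Square roots: the norm of a product of values `± w`. -/
theorem v4_norm_sign (hT : TransOn L G) {w : AlgebraicClosure K}
    (hw : ∀ s ∈ G, s w = w ∨ s w = -w) :
    normG L G w = w ^ Module.finrank K L ∨ normG L G w = -w ^ Module.finrank K L := by
  have h1 : FixG G (w * w) := by
    intro s hs
    rw [map_mul]
    rcases hw s hs with h1 | h1
    · rw [h1]
    · rw [h1, neg_mul_neg]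
  have h2 := v4_norm_pow L G hT h1
  rw [v4_norm_mul, mul_pow] at h2
  exact mul_self_eq_mul_self_iff.1 h2

end Pool.Agent.H.MP_ac3185_nt
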