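import Pool.Agent.H.MP_ac3185_nt.V4.Trans
import Pool.Agent.H.MP_ac3185_nt.V4.NormG
import Pool.Agent.H.MP_ac3185_nt.V.Unit

/-! The conditions at one prime in a quadratic extension. -/

set_option autoImplicit false

open NumberField IsDedekindDomain

namespace Pool.Agent.H.MP_ac3185_nt

universe u

section grp

variable {K : Type u} [Field K]

/-- The inertia group is normal in the decomposition group. -/
private theorem Local_conj (𝔓 : Ideal (𝓞 (AlgebraicClosure K)))
    {t s : AlgebraicClosure K ≃ₐ[K] AlgebraicClosure K} (ht : t ∈ decompGrp K 𝔓)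
    (hs : s ∈ inertiaGrp K 𝔓) : t⁻¹ * s * t ∈ inertiaGrp K 𝔓 := by
  intro x
  have h1 : galInt (t⁻¹ * s * t) x - x = galInt t⁻¹ (galInt s (galInt t x) - galInt t x) := by
    rw [pla_sub, pla_mul, pla_mul, pla_inv]
  rw [h1]
  have h2 := (decompGrp K 𝔓).inv_mem ht
  exact (h2 _).2 (hs (galInt t x))

end grp

variable {K : Type u} [Field K] [NumberField K] (L : IntermediateField K (AlgebraicClosure K))
  [FiniteDimensional K L]

/-- An element `a` whose norm is a square, with one place above the place below `𝔓`: if it is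
unramified over the quadratic extension given by `G'` then it is unramified.

Proof. Let `r² = a`, `s₀` in the inertia group `I` of `𝔓`, in `Gal(Kbar/L) ∩ G`, with `s₀ r = -r`. Then
`s₀` is not in `G'`, and for all `s` in `I ∩ Gal(Kbar/L) ∩ G`: `s r = r` if and only if `s` is in `G'`
(apply the hypothesis to `s s₀`). Let `w` be as in `v4_root`. Then `s (r w) = r w` for all these `s`.
For `x` in `G` write `x = t h`, `t` in the decomposition group and in `G`, `h` in `Gal(Kbar/L) ∩ G`;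
if `x⁻¹ s₀ ^ n x` is in `Gal(Kbar/L)` then `t⁻¹ s₀ ^ n t` is in `I ∩ Gal(Kbar/L) ∩ G`, so
`x⁻¹ s₀ ^ n x` fixes `r w` (conjugation by `h`, which maps `r w` to `± r w`). By `v4_norm_orbit` the
element `s₀` fixes `normG L G (r w) = normG L G r * normG L G w`. The first factor is `± d`, fixed by
`s₀`, the second is `± w ^ n`, `n` odd, and `s₀ w = -w`. Contradiction. -/
theorem v4_local (hodd : Odd (Module.finrank K L))
    (G' G : Subgroup (AlgebraicClosure K ≃ₐ[K] AlgebraicClosure K)) (hle : G' ≤ G)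
    (h2 : IndexTwo G' G) (M : IntermediateField K (AlgebraicClosure K)) [FiniteDimensional K M]
    (hM : M.fixingSubgroup ≤ G') (hT : TransOn L G) (𝔓 : Ideal (𝓞 (AlgebraicClosure K)))
    (hD : TransOn L (decompGrp K 𝔓 ⊓ G)) {a d : AlgebraicClosure K} (ha0 : a ≠ 0)
    (ha : FixG (L.fixingSubgroup ⊓ G) a) (hd : FixG G d) (hN : normG L G a = d * d)
    (h : UnrG (L.fixingSubgroup ⊓ G') 𝔓 a) : UnrG (L.fixingSubgroup ⊓ G) 𝔓 a := by
  intro s₀ hs₀ hs₀' r hr
  by_contra hne
  have hr0 : r ≠ 0 := by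
    rintro rfl
    rw [mul_zero] at hr
    exact ha0 hr.symm
  -- the action on `r`
  have hrs : ∀ s ∈ L.fixingSubgroup ⊓ G, s r = r ∨ s r = -r := by
    intro s hs
    have h1 : s r * s r = r * r := by
      rw [← map_mul, hr, ha s hs]
    exact mul_self_eq_mul_self_iff.1 h1
  have hs₀r : s₀ r = -r := (hrs s₀ hs₀').resolve_left hne
  have hs₀G' : s₀ ∉ G' := fun h3 => hne (h s₀ hs₀ ⟨hs₀'.1, h3⟩ r hr)
  obtain ⟨w, hw0, hwG', hw⟩ := v4_root G' G hle h2 M hM
  have hws : ∀ s ∈ G, s w = w ∨ s w = -w := by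
    intro s hs
    by_cases h3 : s ∈ G'
    · exact Or.inl (hwG' s h3)
    · exact Or.inr (hw s hs h3)
  have hR0 : r * w ≠ 0 := mul_ne_zero hr0 hw0
  -- the inertia group acts trivially on `r w`
  have hI : ∀ s ∈ inertiaGrp K 𝔓, s ∈ L.fixingSubgroup ⊓ G → s (r * w) = r * w := by
    intro s hs hs'
    by_cases h3 : s ∈ G'
    · rw [map_mul, h s hs ⟨hs'.1, h3⟩ r hr, hwG' s h3]
    · have h4 := h (s * s₀) ((inertiaGrp K 𝔓).mul_mem hs hs₀)
        ⟨L.fixingSubgroup.mul_mem hs'.1 hs₀'.1, h2 s hs'.2 s₀ hs₀'.2 h3 hs₀G'⟩ r hr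
      rw [AlgEquiv.mul_apply, hs₀r, map_neg] at h4
      rw [map_mul, neg_eq_iff_eq_neg.1 h4, hw s hs'.2 h3, neg_mul_neg]
  have hRs : ∀ s ∈ L.fixingSubgroup, s ∈ G → s (r * w) = r * w ∨ s (r * w) = -(r * w) := by
    intro s hs hs'
    rw [map_mul]
    rcases hrs s ⟨hs, hs'⟩ with h3 | h3 <;> rcases hws s hs' with h4 | h4
    · exact Or.inl (by rw [h3, h4])
    · exact Or.inr (by rw [h3, h4, mul_neg])
    · exact Or.inr (by rw [h3, h4, neg_mul])
    · exact Or.inl (by rw [h3, h4, neg_mul_neg])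
  have horb := v4_norm_orbit L G hT hR0 hRs hs₀'.2 (by
    intro x hx n hxn
    obtain ⟨t, ht, htx⟩ := hD x
    have hxG : t⁻¹ * x ∈ G := G.mul_mem (G.inv_mem ht.2) hx
    have e1 : t⁻¹ * s₀ ^ n * t = (t⁻¹ * x) * (x⁻¹ * s₀ ^ n * x) * (t⁻¹ * x)⁻¹ := by group
    have e2 : x⁻¹ * s₀ ^ n * x = (t⁻¹ * x)⁻¹ * (t⁻¹ * s₀ ^ n * t) * (t⁻¹ * x) := by group
    have h3 : t⁻¹ * s₀ ^ n * t ∈ L.fixingSubgroup ⊓ G := by
      refine ⟨?_, G.mul_mem (G.mul_mem (G.inv_mem ht.2) (G.pow_mem hs₀'.2 n)) ht.2⟩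
      rw [e1]
      exact L.fixingSubgroup.mul_mem (L.fixingSubgroup.mul_mem htx hxn)
        (L.fixingSubgroup.inv_mem htx)
    have h4 := hI _ (Local_conj 𝔓 ht.1 ((inertiaGrp K 𝔓).pow_mem hs₀ n)) h3
    rw [e2, AlgEquiv.mul_apply, AlgEquiv.mul_apply]
    have h5 : (t⁻¹ * s₀ ^ n * t) ((t⁻¹ * x) (r * w)) = (t⁻¹ * x) (r * w) := by
      rcases hRs _ htx hxG with h6 | h6
      · rw [h6, h4]
      · rw [h6, map_neg, h4]
    rw [h5, ← AlgEquiv.mul_apply, inv_mul_cancel, AlgEquiv.one_apply])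
  -- the norm of `r w`
  have hNr : normG L G r = d ∨ normG L G r = -d := by
    rw [← mul_self_eq_mul_self_iff, ← v4_norm_mul, hr, hN]
  have hNr' : s₀ (normG L G r) = normG L G r := by
    rcases hNr with h3 | h3
    · rw [h3, hd s₀ hs₀'.2]
    · rw [h3, map_neg, hd s₀ hs₀'.2]
  have hNw : s₀ (normG L G w) = -normG L G w := by
    have h3 : s₀ (w ^ Module.finrank K L) = -w ^ Module.finrank K L := by
      rw [map_pow, hw s₀ hs₀'.2 hs₀G', hodd.neg_pow]
    rcases v4_norm_sign L G hT hws with h4 | h4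
    · rw [h4, h3]
    · rw [h4, map_neg, h3]
  rw [v4_norm_mul, map_mul, hNr', hNw, mul_neg] at horb
  have h5 : normG L G r * normG L G w ≠ 0 := mul_ne_zero (v4_norm_ne L G hr0) (v4_norm_ne L G hw0)
  have h6 : (2 : AlgebraicClosure K) * (normG L G r * normG L G w) = 0 := by
    rw [two_mul]
    nth_rewrite 1 [← horb]
    exact neg_add_cancel _
  rcases mul_eq_zero.1 h6 with h7 | h7
  · exact two_ne_zero h7
  · exact h5 h7

/-- An element of `LM` whose norm to `M` is a square has even valuation at a place above which there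
is one place. Proof: as for `vu_normAt`, `vu_evenNorm` (V/Unit), with the representatives of the
cosets in the decomposition group: `normG L G a / a ^ n` is a unit at `𝔓`. -/
theorem v4_even (hodd : Odd (Module.finrank K L)) (M : IntermediateField K (AlgebraicClosure K))
    [FiniteDimensional K M] (hT : TransOn L M.fixingSubgroup) (𝔓 : Ideal (𝓞 (AlgebraicClosure K)))
    (h𝔓 : FinPrime 𝔓) (hD : TransOn L (decompGrp K 𝔓 ⊓ M.fixingSubgroup))
    {a d : AlgebraicClosure K} (ha0 : a ≠ 0) (ha : FixG (L.fixingSubgroup ⊓ M.fixingSubgroup) a)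
    (hd : FixG M.fixingSubgroup d) (hN : normG L M.fixingSubgroup a = d * d) :
    EvenAt (L ⊔ M) 𝔓 a := by
  have hP : 𝔓.IsPrime := h𝔓.1
  have hgal : IsGalois K (AlgebraicClosure K) := IsAlgClosure.isGalois K (AlgebraicClosure K)
  have := vn_finiteIndex L
  let _ := L.fixingSubgroup.fintypeQuotientOfFiniteIndex
  have haLM : a ∈ L ⊔ M := by
    rw [← InfiniteGalois.fixedField_fixingSubgroup (L ⊔ M), IntermediateField.mem_fixedField_iff,
      IntermediateField.fixingSubgroup_sup]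
    exact ha
  have hdLM : d ∈ L ⊔ M := by
    rw [← InfiniteGalois.fixedField_fixingSubgroup (L ⊔ M), IntermediateField.mem_fixedField_iff,
      IntermediateField.fixingSubgroup_sup]
    exact fun s hs => hd s hs.2
  have hd0 : d ≠ 0 := by
    rintro rfl
    rw [mul_zero] at hN
    exact v4_norm_ne L _ ha0 hN
  have hU : UnitAt 𝔓 (normG L M.fixingSubgroup a / a ^ Module.finrank K L) := by
    rw [v4_norm_prod, ← vn_card L, ← Finset.card_univ, ← Finset.prod_const,
      ← Finset.prod_div_distrib]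
    refine UnitAt.prod _ _ fun q _ => ?_
    obtain ⟨s, rfl⟩ := QuotientGroup.mk_surjective q
    obtain ⟨t, ht, hts⟩ := hD s
    rw [v4_rep_apply L M.fixingSubgroup hT ha _ ht.2 (QuotientGroup.eq.2 hts)]
    exact vu_unitAt h𝔓 ht.1 ha0
  obtain ⟨x, y, hx, hy, h⟩ := hU
  obtain ⟨m, hm⟩ := hodd
  refine ⟨d / a ^ m, div_mem hdLM (pow_mem haLM m), div_ne_zero hd0 (pow_ne_zero m ha0), y, x,
    hy, hx, ?_⟩
  rw [← h, hN, hm]
  field_simp
  ring

end Pool.Agent.H.MP_ac3185_nt
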