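import Pool.Agent.H.MP_ac3185_nt.V4.Defs

/-! Transitivity of subgroups of index at most `2` (odd degree). -/

set_option autoImplicit false

open NumberField IsDedekindDomain

namespace Pool.Agent.H.MP_ac3185_nt

universe u

variable {K : Type u} [Field K] [CharZero K] (L : IntermediateField K (AlgebraicClosure K))
  [FiniteDimensional K L]

/-- As in `vr_relIndex` (V/RootA): the orbit of the class of `1` is everything, its stabilizer is
`Gal(Kbar/L) ∩ S`. -/
theorem v4_relIndex (S : Subgroup (AlgebraicClosure K ≃ₐ[K] AlgebraicClosure K))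
    (hS : TransOn L S) : L.fixingSubgroup.relIndex S = Module.finrank K L := by
  have hG : IsGalois K (AlgebraicClosure K) := IsAlgClosure.isGalois K (AlgebraicClosure K)
  have htr : MulAction.IsPretransitive S
      ((AlgebraicClosure K ≃ₐ[K] AlgebraicClosure K) ⧸ L.fixingSubgroup) := by
    have key : ∀ x : (AlgebraicClosure K ≃ₐ[K] AlgebraicClosure K) ⧸ L.fixingSubgroup,
        ∃ d : S, d • ((1 : AlgebraicClosure K ≃ₐ[K] AlgebraicClosure K) :
          (AlgebraicClosure K ≃ₐ[K] AlgebraicClosure K) ⧸ L.fixingSubgroup) = x := by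
      intro x
      obtain ⟨σ, rfl⟩ := QuotientGroup.mk_surjective x
      obtain ⟨d, hd, hh⟩ := hS σ
      refine ⟨⟨d, hd⟩, ?_⟩
      show ((d * 1 : AlgebraicClosure K ≃ₐ[K] AlgebraicClosure K) :
          (AlgebraicClosure K ≃ₐ[K] AlgebraicClosure K) ⧸ L.fixingSubgroup) = _
      rw [QuotientGroup.eq, mul_one]
      exact hh
    constructor
    intro x y
    obtain ⟨a, rfl⟩ := key x
    obtain ⟨b, rfl⟩ := key y
    exact ⟨b * a⁻¹, by rw [mul_smul, inv_smul_smul]⟩
  have hst : MulAction.stabilizer S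
      ((1 : AlgebraicClosure K ≃ₐ[K] AlgebraicClosure K) :
        (AlgebraicClosure K ≃ₐ[K] AlgebraicClosure K) ⧸ L.fixingSubgroup) =
      L.fixingSubgroup.subgroupOf S := by
    ext d
    rw [MulAction.mem_stabilizer_iff, Subgroup.mem_subgroupOf]
    have h2 : d • ((1 : AlgebraicClosure K ≃ₐ[K] AlgebraicClosure K) :
        (AlgebraicClosure K ≃ₐ[K] AlgebraicClosure K) ⧸ L.fixingSubgroup) =
        ((d.1 * 1 : AlgebraicClosure K ≃ₐ[K] AlgebraicClosure K) :
          (AlgebraicClosure K ≃ₐ[K] AlgebraicClosure K) ⧸ L.fixingSubgroup) := rfl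
    rw [h2, QuotientGroup.eq, mul_one, mul_one]
    exact inv_mem_iff
  rw [Subgroup.relIndex, ← hst, MulAction.index_stabilizer_of_transitive,
    IntermediateField.finrank_eq_fixingSubgroup_index]
  rfl

/-- Otherwise `Gal(Kbar/L) ∩ S ≤ G' ∩ S`, which has index `2` in `S`; so `2` divides the degree. -/
theorem v4_sigma (hodd : Odd (Module.finrank K L))
    (S G' : Subgroup (AlgebraicClosure K ≃ₐ[K] AlgebraicClosure K))
    (hS : TransOn L S) (h2 : IndexTwo G' S) (hne : ∃ s ∈ S, s ∉ G') :
    ∃ σ ∈ L.fixingSubgroup, σ ∈ S ∧ σ ∉ G' := by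
  by_contra hcon
  push Not at hcon
  obtain ⟨a, ha, haG⟩ := hne
  have h3 : G'.relIndex S = 2 := by
    rw [Subgroup.relIndex_eq_two_iff_exists_notMem_and']
    refine ⟨a, ha, haG, fun b hb => ?_⟩
    by_cases hbG : b ∈ G'
    · exact Or.inr hbG
    · exact Or.inl (h2 a ha b hb haG hbG)
  have h4 : L.fixingSubgroup ⊓ S ≤ G' := fun σ hσ => hcon σ hσ.1 hσ.2
  have h5 : G'.relIndex S ∣ (L.fixingSubgroup ⊓ S).relIndex S :=
    Subgroup.relIndex_dvd_of_le_left S h4
  rw [Subgroup.inf_relIndex_right, v4_relIndex L S hS, h3] at h5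
  exact (Nat.not_even_iff_odd.2 hodd) (even_iff_two_dvd.2 h5)

/-- If `t` in `S` is not in `G'` take `t σ`. -/
theorem v4_trans (hodd : Odd (Module.finrank K L))
    (S G' : Subgroup (AlgebraicClosure K ≃ₐ[K] AlgebraicClosure K))
    (hS : TransOn L S) (h2 : IndexTwo G' S) : TransOn L (S ⊓ G') := by
  intro s
  obtain ⟨t, ht, hts⟩ := hS s
  by_cases htG : t ∈ G'
  · exact ⟨t, ⟨ht, htG⟩, hts⟩
  · obtain ⟨σ, hσL, hσS, hσG⟩ := v4_sigma L hodd S G' hS h2 ⟨t, ht, htG⟩
    refine ⟨t * σ, ⟨mul_mem ht hσS, h2 t ht σ hσS htG hσG⟩, ?_⟩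
    rw [mul_inv_rev, mul_assoc]
    exact mul_mem (inv_mem hσL) hts

/-- Automorphisms which fix the field fixed by an open subgroup `S` are in `S`. See the proof of
`vk_kummer` in V/Kum. -/
theorem v4_closed (S : Subgroup (AlgebraicClosure K ≃ₐ[K] AlgebraicClosure K))
    (M : IntermediateField K (AlgebraicClosure K)) [FiniteDimensional K M]
    (hM : M.fixingSubgroup ≤ S) (s : AlgebraicClosure K ≃ₐ[K] AlgebraicClosure K)
    (hs : ∀ x, FixG S x → s x = x) : s ∈ S := by
  have hopen : IsOpen (S : Set (AlgebraicClosure K ≃ₐ[K] AlgebraicClosure K)) :=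
    Subgroup.isOpen_mono hM (IntermediateField.fixingSubgroup_isOpen _)
  have hfix : (IntermediateField.fixedField S).fixingSubgroup = S :=
    InfiniteGalois.fixingSubgroup_fixedField
      (⟨S, S.isClosed_of_isOpen hopen⟩ :
        ClosedSubgroup (AlgebraicClosure K ≃ₐ[K] AlgebraicClosure K))
  have h3 : s ∈ (IntermediateField.fixedField S).fixingSubgroup := by
    rw [IntermediateField.mem_fixingSubgroup_iff]
    intro z hz
    rw [IntermediateField.mem_fixedField_iff] at hz
    exact hs z hz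
  rwa [hfix] at h3

omit [FiniteDimensional K L] in
/-- Complex conjugation, for an embedding which is real on the field given by an open subgroup. -/
theorem v4_conj (S : Subgroup (AlgebraicClosure K ≃ₐ[K] AlgebraicClosure K))
    (M : IntermediateField K (AlgebraicClosure K)) [FiniteDimensional K M]
    (hM : M.fixingSubgroup ≤ S) (e : AlgebraicClosure K →+* ℂ)
    (he : ∀ x, FixG S x → starRingEnd ℂ (e x) = e x) :
    ∃ s ∈ S, ∀ z, e (s z) = starRingEnd ℂ (e z) := by
  let _ : Algebra (AlgebraicClosure K) ℂ := e.toAlgebra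
  let _ : Algebra K ℂ := (e.comp (algebraMap K (AlgebraicClosure K))).toAlgebra
  have : IsScalarTower K (AlgebraicClosure K) ℂ := IsScalarTower.of_algebraMap_eq fun _ => rfl
  let φ : AlgebraicClosure K →ₐ[K] ℂ :=
    { (starRingEnd ℂ).comp e with
      commutes' := fun x => he (algebraMap K (AlgebraicClosure K) x) fun s _ => s.commutes x }
  let s : AlgebraicClosure K ≃ₐ[K] AlgebraicClosure K :=
    AlgHom.restrictNormal' φ (AlgebraicClosure K)
  have hs : ∀ z, e (s z) = starRingEnd ℂ (e z) := fun z =>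
    AlgHom.restrictNormal_commutes φ (AlgebraicClosure K) z
  refine ⟨s, v4_closed S M hM s fun x hx => e.injective ?_, hs⟩
  rw [hs]
  exact he x hx

/-- For `G' ≤ G` of index `2` there is an element `w` with `w² ` fixed by `G` on which `G` acts by
the character with kernel `G'`. Take `z` fixed by `G'`, not by `g₀` in `G` (`v4_closed`), and
`w = z - g₀ z`. -/
theorem v4_root (G' G : Subgroup (AlgebraicClosure K ≃ₐ[K] AlgebraicClosure K)) (hle : G' ≤ G)
    (h2 : IndexTwo G' G) (M : IntermediateField K (AlgebraicClosure K)) [FiniteDimensional K M]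
    (hM : M.fixingSubgroup ≤ G') :
    ∃ w : AlgebraicClosure K, w ≠ 0 ∧ FixG G' w ∧ ∀ s ∈ G, s ∉ G' → s w = -w := by
  by_cases hall : ∀ s ∈ G, s ∈ G'
  · exact ⟨1, one_ne_zero, fun s _ => map_one s, fun s hs hs' => absurd (hall s hs) hs'⟩
  · push Not at hall
    obtain ⟨t, ht, htN⟩ := hall
    obtain ⟨z, hz, hzt⟩ : ∃ z, FixG G' z ∧ t z ≠ z := by
      by_contra hcon
      push Not at hcon
      exact htN (v4_closed G' M hM t hcon)
    have hconj : ∀ s ∈ G', t⁻¹ * s * t ∈ G' := by
      intro s hs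
      by_contra hcon
      have h5 : t⁻¹ * s * t ∈ G := mul_mem (mul_mem (inv_mem ht) (hle hs)) ht
      have h6 := h2 t ht _ h5 htN hcon
      have h7 : t * (t⁻¹ * s * t) = s * t := by group
      rw [h7] at h6
      apply htN
      have h8 : s⁻¹ * (s * t) ∈ G' := mul_mem (inv_mem hs) h6
      rwa [inv_mul_cancel_left] at h8
    have htt : t (t z) = z := by
      have h9 := hz _ (h2 t ht t ht htN htN)
      rwa [AlgEquiv.mul_apply] at h9
    have hst : ∀ s ∈ G', s (t z) = t z := by
      intro s hs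
      have h10 := hz _ (hconj s hs)
      rw [AlgEquiv.mul_apply, AlgEquiv.mul_apply] at h10
      have h11 := congrArg t h10
      rwa [← AlgEquiv.mul_apply, mul_inv_cancel, AlgEquiv.one_apply] at h11
    have hN' : ∀ s ∈ G', s (z - t z) = z - t z := fun s hs => by
      rw [map_sub, hz s hs, hst s hs]
    refine ⟨z - t z, sub_ne_zero.2 (Ne.symm hzt), hN', ?_⟩
    intro s hs hsN
    have h12 : s * t ∈ G' := h2 s hs t ht hsN htN
    have h13 := hN' _ h12
    have h14 : t (z - t z) = -(z - t z) := by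
      rw [map_sub, htt]
      ring
    rw [AlgEquiv.mul_apply, h14, map_neg] at h13
    exact neg_eq_iff_eq_neg.1 h13

end Pool.Agent.H.MP_ac3185_nt
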