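import Pool.Agent.H.MP_ac3185_nt.V4.Defs
import Pool.Agent.H.MP_ac3185_nt.V2.Defs
import Pool.Agent.H.MP_ac3185_nt.V.Chain

/-! The steps of the theorem on towers. -/

set_option autoImplicit false

open CategoryTheory AlgebraicGeometry NumberField IsDedekindDomain
open scoped MonObj

namespace Pool.Agent.H.MP_ac3185_nt

universe u

section numberField

variable {K : Type u} [Field K] [NumberField K]

/-- There is only one place of `L` above the finite place `v` of `K`. -/
def OneAbove (L : IntermediateField K (AlgebraicClosure K)) (v : HeightOneSpectrum (𝓞 K)) : Prop :=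
  ∀ 𝔓 : Ideal (𝓞 (AlgebraicClosure K)), Above 𝔓 v → OnePlace L 𝔓

/-- `v` is unramified in `M / K`. -/
def UnramifiedIn (M : IntermediateField K (AlgebraicClosure K)) (v : HeightOneSpectrum (𝓞 K)) :
    Prop :=
  ∀ 𝔓 : Ideal (𝓞 (AlgebraicClosure K)), Above 𝔓 v →
    inertia K 𝔓 ⊆ (M.fixingSubgroup : Set (AlgebraicClosure K ≃ₐ[K] AlgebraicClosure K))

/-- There is at most one real embedding of `L` which extends the embedding `ε` of `K`. -/
def OneReal (L : IntermediateField K (AlgebraicClosure K)) (ε : K →+* ℂ) : Prop :=
  ∀ e e' : AlgebraicClosure K →+* ℂ, e.comp (algebraMap K (AlgebraicClosure K)) = ε →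
    e'.comp (algebraMap K (AlgebraicClosure K)) = ε → (∀ x ∈ L, starRingEnd ℂ (e x) = e x) →
    (∀ x ∈ L, starRingEnd ℂ (e' x) = e' x) → ∀ x ∈ L, e x = e' x

/-- `M` is unramified at the real places of `K` with more than one real place of `L` above them: every
complex conjugation of `Kbar` at such a place fixes `M`. -/
def UnramifiedInf (L M : IntermediateField K (AlgebraicClosure K)) : Prop :=
  ∀ (e : AlgebraicClosure K →+* ℂ) (s : AlgebraicClosure K ≃ₐ[K] AlgebraicClosure K),
    (∀ z, e (s z) = starRingEnd ℂ (e z)) →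
      OneReal L (e.comp (algebraMap K (AlgebraicClosure K))) ∨ s ∈ M.fixingSubgroup

/-- `f : B → C` is an isogeny of degree `2` over `K` with these properties, for a set `T` of finite
places and a set `R` of embeddings of `K`:
its kernel is etale at the places in `T`; there is only one place of `L` above the other places above
`2`; at the finite places which do not lie above `2` its kernel is etale or there is only one place of
`L` above them; if `f(x)` is fixed by a complex conjugation above an embedding in `R`, then so is `x`;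
all elements of `selClasses L T R` are squares. -/
structure PureStep (L : IntermediateField K (AlgebraicClosure K))
    (T : Set (HeightOneSpectrum (𝓞 K))) (R : Set (K →+* ℂ)) {B C : Over (Spec (.of K))}
    [GrpObj B] [IsAbVar B] [GrpObj C] [IsAbVar C] (f : B ⟶ C) : Prop extends DegTwo f where
  etale : ∀ v ∈ T, FibresEtale f v
  two : ∀ v ∉ T, 2 ∈ v.asIdeal → OneAbove L v
  odd : ∀ v, 2 ∉ v.asIdeal → FibresEtale f v ∨ OneAbove L v
  real : ∀ (e : AlgebraicClosure K →+* ℂ) (s : AlgebraicClosure K ≃ₐ[K] AlgebraicClosure K),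
    e.comp (algebraMap K (AlgebraicClosure K)) ∈ R → (∀ z, e (s z) = starRingEnd ℂ (e z)) →
    ∀ x, act C s (onPts f x) = onPts f x → act B s x = x
  cls : ∀ a ∈ selClasses L T R, IsSquare a

/-- The compositions of isogenies `f` of degree `2` over `K` satisfying `PureStep L T R f`, where `T`
and `R` depend on `f`. -/
inductive PureChain (L : IntermediateField K (AlgebraicClosure K)) (A : Over (Spec (.of K)))
    [GrpObj A] [IsAbVar A] :
    (B : Over (Spec (.of K))) → [GrpObj B] → [IsAbVar B] → (A ⟶ B) → Prop
  | refl : PureChain L A A (𝟙 A)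
  | step {B C : Over (Spec (.of K))} [GrpObj B] [IsAbVar B] [GrpObj C] [IsAbVar C] (h : A ⟶ B)
      (f : B ⟶ C) (T : Set (HeightOneSpectrum (𝓞 K))) (R : Set (K →+* ℂ)) :
      PureChain L A B h → PureStep L T R f → PureChain L A C (h ≫ f)

/-- The decomposition for all steps gives the decomposition for all compositions. -/
theorem v4_pureChain (L M : IntermediateField K (AlgebraicClosure K))
    (hstep : ∀ {B C : Over (Spec (.of K))} [GrpObj B] [IsAbVar B] [GrpObj C]
      [IsAbVar C] (T : Set (HeightOneSpectrum (𝓞 K))) (R : Set (K →+* ℂ)) (f : B ⟶ C),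
      PureStep L T R f → SplitOver L M f)
    (A : Over (Spec (.of K))) [GrpObj A] [IsAbVar A]
    {B : Over (Spec (.of K))} [GrpObj B] [IsAbVar B] (h : A ⟶ B) (hh : PureChain L A B h) :
    SplitOver L M h := by
  induction hh with
  | refl =>
    intro y hy
    refine ⟨0, y, fun s _ => map_zero (galHom A s), hy, ?_⟩
    rw [vc_onPts_id, zero_add]
  | step h f T R _ hf ih =>
    intro y hy
    obtain ⟨y0, x, hy0, hx, rfl⟩ := hstep T R f hf y hy
    obtain ⟨x0, z, hx0, hz, rfl⟩ := ih x hx
    have := hf.hom
    refine ⟨y0 + onPts f x0, z, fun s hs => ?_, hz, ?_⟩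
    · rw [vc_act_add, hy0 s hs, vc_onPts_act, hx0 s hs]
    · rw [vc_onPts_add, vc_onPts_comp, add_assoc]

end numberField

end Pool.Agent.H.MP_ac3185_nt
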