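import Pool.Agent.H.MP_ac3185_nt.V4.Defs
import Pool.Agent.H.MP_ac3185_nt.V.RootC

/-! The root numbers over `LM` and over `M`. -/

set_option autoImplicit false

open CategoryTheory AlgebraicGeometry NumberField IsDedekindDomain
open scoped MonObj Pointwise

namespace Pool.Agent.H.MP_ac3185_nt

universe u

variable {K : Type u} [Field K] [NumberField K]

omit [NumberField K] in
/-- The relative index of a transitive subgroup. -/
theorem v4r_relIndex [CharZero K] (L : IntermediateField K (AlgebraicClosure K))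
    [FiniteDimensional K L] (S : Subgroup (AlgebraicClosure K ≃ₐ[K] AlgebraicClosure K))
    (h1 : TransOn L S) : L.fixingSubgroup.relIndex S = Module.finrank K L := by
  have hG : IsGalois K (AlgebraicClosure K) := IsAlgClosure.isGalois K (AlgebraicClosure K)
  have htr : MulAction.IsPretransitive S
      ((AlgebraicClosure K ≃ₐ[K] AlgebraicClosure K) ⧸ L.fixingSubgroup) := by
    have key : ∀ x : (AlgebraicClosure K ≃ₐ[K] AlgebraicClosure K) ⧸ L.fixingSubgroup,
        ∃ d : S, d • ((1 : AlgebraicClosure K ≃ₐ[K] AlgebraicClosure K) :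
          (AlgebraicClosure K ≃ₐ[K] AlgebraicClosure K) ⧸ L.fixingSubgroup) = x := by
      intro x
      obtain ⟨σ, rfl⟩ := QuotientGroup.mk_surjective x
      obtain ⟨d, hd, hh⟩ := h1 σ
      refine ⟨⟨d, hd⟩, ?_⟩
      show ((d * 1 : AlgebraicClosure K ≃ₐ[K] AlgebraicClosure K) :
          (AlgebraicClosure K ≃ₐ[K] AlgebraicClosure K) ⧸ L.fixingSubgroup) = _
      rw [QuotientGroup.eq, mul_one]
      exact hh
    constructor
    intro x y
    obtain ⟨a, rfl⟩ := key x
    obtain ⟨b, rfl⟩ := key y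
    exact ⟨b * a⁻¹, by rw [mul_smul, inv_smul_smul]⟩
  have hst : MulAction.stabilizer S
      ((1 : AlgebraicClosure K ≃ₐ[K] AlgebraicClosure K) :
        (AlgebraicClosure K ≃ₐ[K] AlgebraicClosure K) ⧸ L.fixingSubgroup) =
      L.fixingSubgroup.subgroupOf S := by
    ext d
    rw [MulAction.mem_stabilizer_iff, Subgroup.mem_subgroupOf]
    have h2 : d • ((1 : AlgebraicClosure K ≃ₐ[K] AlgebraicClosure K) :
        (AlgebraicClosure K ≃ₐ[K] AlgebraicClosure K) ⧸ L.fixingSubgroup) =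
        ((d.1 * 1 : AlgebraicClosure K ≃ₐ[K] AlgebraicClosure K) :
          (AlgebraicClosure K ≃ₐ[K] AlgebraicClosure K) ⧸ L.fixingSubgroup) := rfl
    rw [h2, QuotientGroup.eq, mul_one, mul_one]
    exact inv_mem_iff
  rw [Subgroup.relIndex, ← hst, MulAction.index_stabilizer_of_transitive,
    IntermediateField.finrank_eq_fixingSubgroup_index]
  rfl

omit [NumberField K] in
theorem v4r_totReal {L M : IntermediateField K (AlgebraicClosure K)} (hLM : L ≤ M)
    (h : TotReal M) : TotReal L := fun e x => h e ⟨x.1, hLM x.2⟩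

/-- The degrees. -/
theorem v4r_degree (L M : IntermediateField K (AlgebraicClosure K)) [FiniteDimensional K L]
    [FiniteDimensional K M] (hT : TransOn L M.fixingSubgroup) :
    Module.finrank K (L ⊔ M : IntermediateField K (AlgebraicClosure K)) =
      Module.finrank K L * Module.finrank K M := by
  have hG : IsGalois K (AlgebraicClosure K) := IsAlgClosure.isGalois K (AlgebraicClosure K)
  have h1 : (L ⊔ M : IntermediateField K (AlgebraicClosure K)).fixingSubgroup ≤
      M.fixingSubgroup := IntermediateField.fixingSubgroup_antitone le_sup_right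
  have h2 := Subgroup.relIndex_mul_index h1
  rw [IntermediateField.fixingSubgroup_sup, Subgroup.inf_relIndex_right,
    v4r_relIndex L _ hT, ← IntermediateField.fixingSubgroup_sup] at h2
  have h3 : Module.finrank K M = M.fixingSubgroup.index := by
    rw [IntermediateField.finrank_eq_fixingSubgroup_index]
  rw [h3, IntermediateField.finrank_eq_fixingSubgroup_index, ← h2]

/-- The sign at infinity. -/
theorem v4r_inf (g : ℕ) (L M : IntermediateField K (AlgebraicClosure K)) [FiniteDimensional K L]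
    [FiniteDimensional K M] (hodd : Odd (Module.finrank K L)) (hT : TransOn L M.fixingSubgroup)
    (h : TotReal (L ⊔ M)) :
    (-1 : ℤ) ^ (g * Nat.card (InfinitePlace (L ⊔ M : IntermediateField K (AlgebraicClosure K)))) =
      (-1) ^ (g * Nat.card (InfinitePlace M)) := by
  rw [vr_card h, vr_card (v4r_totReal le_sup_right h), v4r_degree L M hT]
  have h1 : g * (Module.finrank ℚ K * (Module.finrank K L * Module.finrank K M)) =
      (g * (Module.finrank ℚ K * Module.finrank K M)) * Module.finrank K L := by ring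
  rw [h1, pow_mul]
  rcases neg_one_pow_eq_or ℤ (g * (Module.finrank ℚ K * Module.finrank K M)) with h1 | h1
  · rw [h1, one_pow]
  · rw [h1, hodd.neg_one_pow]

/-- The root number at a place below a prime of good reduction is `1`. -/
theorem v4r_good (A : Over (Spec (.of K))) [GrpObj A] [IsAbVar A]
    (W : LocalSigns K) (hW : IsRootNumbers A W) (v : HeightOneSpectrum (𝓞 K))
    (L : IntermediateField K (AlgebraicClosure K)) [FiniteDimensional K L]
    (w : HeightOneSpectrum (𝓞 L)) (𝔓 : Ideal (𝓞 (AlgebraicClosure K))) (h𝔓 : Above 𝔓 v)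
    (hw : PrimeOver L 𝔓 w) (hg : GoodAt A 𝔓) : W L w = 1 := by
  obtain ⟨B, hB⟩ := exists_bound v 𝔓 h𝔓
  obtain ⟨ℓ, hℓB, hℓ⟩ := Nat.exists_infinite_primes (B + 1)
  have : Fact ℓ.Prime := ⟨hℓ⟩
  have hℓ𝔓 : (ℓ : 𝓞 (AlgebraicClosure K)) ∉ 𝔓 := hB ℓ hℓ (by omega)
  have hid : ∀ (ℓ' : ℕ) [Fact ℓ'.Prime], (ℓ' : 𝓞 (AlgebraicClosure K)) ∉ 𝔓 →
      ∀ g ∈ inertia K 𝔓, ∀ x, galV A ℓ' g x = x := by
    intro ℓ' _ hℓ' g hgi x
    rw [(hg ℓ' hℓ').2 g hgi]
    rfl
  have hss : SemistableOver A L 𝔓 := by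
    intro ℓ' _ hℓ'
    exact ⟨(hg ℓ' hℓ').1, fun g hg x => hid ℓ' hℓ' g hg.1 _⟩
  rw [hW.semistable L w 𝔓 hw hss ℓ hℓ𝔓]
  have htop : fixedBy (ops A ℓ (inertia K 𝔓 ∩
      (L.fixingSubgroup : Set (AlgebraicClosure K ≃ₐ[K] AlgebraicClosure K)))) = ⊤ := by
    rw [eq_top_iff]
    intro x _
    rintro _ ⟨g, hg, rfl⟩
    exact hid ℓ hℓ𝔓 g hg.1 x
  have h0 : localRank A ℓ L 𝔓 = 0 := by
    unfold localRank quotRank
    have hsub : Subsingleton (VTate ℓ (Pts A (AlgebraicClosure K)) ⧸ fixedBy (ops A ℓ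
        (inertia K 𝔓 ∩
          (L.fixingSubgroup : Set (AlgebraicClosure K ≃ₐ[K] AlgebraicClosure K))))) :=
      Submodule.Quotient.subsingleton_iff.2 htop
    exact Module.finrank_zero_of_subsingleton
  rw [h0, pow_zero]

/-- The parity of the split rank at a prime such that the decomposition group in `Gal(Kbar/M)` is
transitive. -/
theorem v4r_rank (A : Over (Spec (.of K))) [GrpObj A] [IsAbVar A] (v : HeightOneSpectrum (𝓞 K))
    (𝔓 : Ideal (𝓞 (AlgebraicClosure K))) (h𝔓 : Above 𝔓 v)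
    (L M : IntermediateField K (AlgebraicClosure K)) [FiniteDimensional K L]
    [FiniteDimensional K M] (hodd : Odd (Module.finrank K L))
    (h1 : TransOn L (decompGrp K 𝔓 ⊓ M.fixingSubgroup)) (hss : SemistableOver A ⊥ 𝔓) :
    ∃ (ℓ : ℕ) (_ : Fact ℓ.Prime), (ℓ : 𝓞 (AlgebraicClosure K)) ∉ 𝔓 ∧
      localRank A ℓ (L ⊔ M) 𝔓 ≡ localRank A ℓ M 𝔓 [MOD 2] := by
  have hrel := v4r_relIndex L _ h1
  let N : IntermediateField K (AlgebraicClosure K) := L ⊔ M
  have hNf : FiniteDimensional K N := inferInstanceAs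
    (FiniteDimensional K (L ⊔ M : IntermediateField K (AlgebraicClosure K)))
  let F : IntermediateField K (AlgebraicClosure K) :=
    IntermediateField.normalClosure K N (AlgebraicClosure K)
  have hFn : Normal K F := inferInstance
  have hFg : IsGalois K F := ⟨⟩
  have hFf : FiniteDimensional K F := inferInstance
  have hNF : N ≤ F := IntermediateField.le_normalClosure N
  have hMN : M ≤ N := le_sup_right
  have hMF : M ≤ F := hMN.trans hNF
  obtain ⟨B, hB⟩ := exists_bound v 𝔓 h𝔓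
  obtain ⟨ℓ, hℓF, hℓB, h4, hp⟩ := exists_good_prime (Nat.card (F ≃ₐ[K] F)) Nat.card_pos.ne' B
  have hℓ𝔓 : (ℓ : 𝓞 (AlgebraicClosure K)) ∉ 𝔓 := hB ℓ hℓF.out hℓB
  refine ⟨ℓ, hℓF, hℓ𝔓, ?_⟩
  obtain ⟨u, hu⟩ := local_semistable F A v 𝔓 h𝔓 hss ℓ hℓ𝔓 h4 hp
  have hL := hu N hNF 1
  have hbot := hu M hMF 1
  rw [one_smul] at hL hbot
  refine hL.trans (Nat.ModEq.trans ?_ hbot.symm)
  unfold Nat.ModEq
  congr 1
  refine finsum_congr fun ε => ?_
  have key : (∀ d : (decompGrp K 𝔓).map (AlgEquiv.restrictNormalHom F),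
      AlgEquiv.restrictNormalHom F (1 : AlgebraicClosure K ≃ₐ[K] AlgebraicClosure K) *
        (d : F ≃ₐ[K] F) * (AlgEquiv.restrictNormalHom F (1 : AlgebraicClosure K ≃ₐ[K] AlgebraicClosure K))⁻¹ ∈ relGal F N → ε d = 1) ↔
      (∀ d : (decompGrp K 𝔓).map (AlgEquiv.restrictNormalHom F),
      AlgEquiv.restrictNormalHom F (1 : AlgebraicClosure K ≃ₐ[K] AlgebraicClosure K) *
        (d : F ≃ₐ[K] F) * (AlgEquiv.restrictNormalHom F (1 : AlgebraicClosure K ≃ₐ[K] AlgebraicClosure K))⁻¹ ∈ relGal F M → ε d = 1) := by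
    simp only [map_one, inv_one, one_mul, mul_one]
    constructor
    · intro h
      have hle : (decompGrp K 𝔓 ⊓ M.fixingSubgroup).map (AlgEquiv.restrictNormalHom F) ≤
          (decompGrp K 𝔓).map (AlgEquiv.restrictNormalHom F) := Subgroup.map_mono inf_le_left
      let S : Subgroup ((decompGrp K 𝔓 ⊓ M.fixingSubgroup).map (AlgEquiv.restrictNormalHom F)) :=
        (relGal F N).subgroupOf _
      have hidx : N.fixingSubgroup.relIndex (decompGrp K 𝔓 ⊓ M.fixingSubgroup) = S.index := by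
        refine relIndex_eq (AlgEquiv.restrictNormalHom F) (decompGrp K 𝔓 ⊓ M.fixingSubgroup)
          N.fixingSubgroup (ker_le_fixingSubgroup F N hNF) 1 (decompGrp K 𝔓 ⊓ M.fixingSubgroup)
          (fun g => by rw [inv_one, one_mul, mul_one]) S ?_
        intro d
        rw [map_fixingSubgroup F N hNF, map_one, inv_one, one_mul, mul_one]
        exact Subgroup.mem_subgroupOf
      have hN : N.fixingSubgroup.relIndex (decompGrp K 𝔓 ⊓ M.fixingSubgroup) =
          Module.finrank K L := by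
        rw [← hrel]
        have h5 : N.fixingSubgroup = L.fixingSubgroup ⊓ M.fixingSubgroup :=
          IntermediateField.fixingSubgroup_sup
        rw [h5, ← Subgroup.inf_relIndex_right, ← Subgroup.inf_relIndex_right L.fixingSubgroup]
        congr 1
        ext x
        simp only [Subgroup.mem_inf]
        tauto
      have h6 := vr_char (ε.comp (Subgroup.inclusion hle)) S
        (by rw [← hidx, hN]; exact hodd) (fun s hs => h _ (Subgroup.mem_subgroupOf.1 hs))
      intro d hd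
      obtain ⟨g, hg, hgd⟩ := d.2
      rw [← map_fixingSubgroup F M hMF, ← hgd] at hd
      obtain ⟨g', hg', hgg'⟩ := hd
      have h7 : g'⁻¹ * g ∈ M.fixingSubgroup := by
        apply ker_le_fixingSubgroup F M hMF
        rw [MonoidHom.mem_ker, map_mul, map_inv, hgg', inv_mul_cancel]
      have h8 : g ∈ M.fixingSubgroup := by
        have h9 := M.fixingSubgroup.mul_mem hg' h7
        rwa [mul_inv_cancel_left] at h9
      have h10 := h6 ⟨d.1, ⟨g, ⟨hg, h8⟩, hgd⟩⟩
      exact h10
    · intro h d hd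
      refine h d ?_
      intro x hx
      exact hd x (hMN hx)
  by_cases hP : ∀ d : (decompGrp K 𝔓).map (AlgEquiv.restrictNormalHom F),
      AlgEquiv.restrictNormalHom F (1 : AlgebraicClosure K ≃ₐ[K] AlgebraicClosure K) *
        (d : F ≃ₐ[K] F) * (AlgEquiv.restrictNormalHom F (1 : AlgebraicClosure K ≃ₐ[K] AlgebraicClosure K))⁻¹ ∈ relGal F N → ε d = 1
  · rw [if_pos hP, if_pos (key.1 hP)]
  · rw [if_neg hP, if_neg fun h => hP (key.2 h)]

/-- The local root numbers at the places below `𝔓`. -/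
theorem v4r_local (A : Over (Spec (.of K))) [GrpObj A] [IsAbVar A]
    (W : LocalSigns K) (hW : IsRootNumbers A W) (v : HeightOneSpectrum (𝓞 K))
    (𝔓 : Ideal (𝓞 (AlgebraicClosure K))) (h𝔓 : Above 𝔓 v)
    (L M : IntermediateField K (AlgebraicClosure K)) [FiniteDimensional K L]
    [FiniteDimensional K M] (hodd : Odd (Module.finrank K L))
    (h1 : TransOn L (decompGrp K 𝔓 ⊓ M.fixingSubgroup))
    (h2 : inertia K 𝔓 ⊆ ((L ⊔ M : IntermediateField K (AlgebraicClosure K)).fixingSubgroup :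
      Set (AlgebraicClosure K ≃ₐ[K] AlgebraicClosure K)) ∨ SemistableOver A ⊥ 𝔓)
    (w : HeightOneSpectrum (𝓞 (L ⊔ M : IntermediateField K (AlgebraicClosure K))))
    (hw : PrimeOver (L ⊔ M) 𝔓 w) (u : HeightOneSpectrum (𝓞 M)) (hu : PrimeOver M 𝔓 u) :
    W (L ⊔ M) w = W M u := by
  rcases h2 with h2 | hss
  · obtain ⟨a, b, hab⟩ := hW.unramified v
    have h3 : (L ⊔ M : IntermediateField K (AlgebraicClosure K)).fixingSubgroup.relIndex
        (decompGrp K 𝔓) = Module.finrank K L * M.fixingSubgroup.relIndex (decompGrp K 𝔓) := by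
      rw [← v4r_relIndex L _ h1, IntermediateField.fixingSubgroup_sup, inf_comm (decompGrp K 𝔓)]
      exact (Subgroup.relIndex_inf_mul_relIndex _ _ _).symm
    have h4 := hab (L ⊔ M) w 𝔓 hw h𝔓 h2
    have h5 := hab M u 𝔓 hu h𝔓 (h2.trans
      (IntermediateField.fixingSubgroup_antitone (le_sup_right : M ≤ L ⊔ M)))
    rcases Nat.even_or_odd (M.fixingSubgroup.relIndex (decompGrp K 𝔓)) with h6 | h6
    · rw [h4.2 (by rw [h3]; exact h6.mul_left _), h5.2 h6]
    · rw [h4.1 (by rw [h3]; exact hodd.mul h6), h5.1 h6]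
  · obtain ⟨ℓ, _, hℓ, hmod⟩ := v4r_rank A v 𝔓 h𝔓 L M hodd h1 hss
    rw [hW.semistable (L ⊔ M) w 𝔓 hw (hss.mono (L ⊔ M)) ℓ hℓ,
      hW.semistable M u 𝔓 hu (hss.mono M) ℓ hℓ, neg_one_pow_eq_pow_mod_two, hmod,
      ← neg_one_pow_eq_pow_mod_two]

/-- Two primes over the same place of `M` are conjugate over `M`. -/
theorem v4r_gal (M : IntermediateField K (AlgebraicClosure K))
    (P Q : Ideal (𝓞 (AlgebraicClosure K))) (u : HeightOneSpectrum (𝓞 M))
    (hP : PrimeOver M P u) (hQ : PrimeOver M Q u) : ∃ h ∈ M.fixingSubgroup, h • P = Q := by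
  have h1 : P.IsPrime := hP.1
  have h2 : Q.IsPrime := hQ.1
  have hG : IsGalois K (AlgebraicClosure K) := IsAlgClosure.isGalois K (AlgebraicClosure K)
  have hG' : IsGalois M (AlgebraicClosure K) :=
    IsGalois.tower_top_of_isGalois K M (AlgebraicClosure K)
  obtain ⟨g, hg⟩ := exists_gal (K := M) P Q (by rw [hP.2, hQ.2])
  refine ⟨g.restrictScalars K, ?_, ?_⟩
  · rw [IntermediateField.mem_fixingSubgroup_iff]
    intro x hx
    exact g.commutes ⟨x, hx⟩
  · exact plb_smul_eq (g := g.restrictScalars K) fun x => hg x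

/-- Conjugate primes over `M` lie over the same place of `M`. -/
theorem v4r_over (M : IntermediateField K (AlgebraicClosure K))
    (P : Ideal (𝓞 (AlgebraicClosure K))) (u : HeightOneSpectrum (𝓞 M))
    (hP : PrimeOver M P u) (h : AlgebraicClosure K ≃ₐ[K] AlgebraicClosure K)
    (hh : h ∈ M.fixingSubgroup) : PrimeOver M (h • P) u := by
  have h1 : P.IsPrime := hP.1
  refine ⟨Ideal.IsPrime.smul h, ?_⟩
  have h2 := (same_place_iff M P 1 h).2 ⟨h, hh, by rw [one_smul]⟩
  rw [← h2, one_smul, hP.2]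

/-- There is only one place of `LM` above a place of `M`. -/
theorem v4r_one (L M : IntermediateField K (AlgebraicClosure K))
    (P Q : Ideal (𝓞 (AlgebraicClosure K))) (u : HeightOneSpectrum (𝓞 M))
    (hP : PrimeOver M P u) (hQ : PrimeOver M Q u)
    (h1 : TransOn L (decompGrp K P ⊓ M.fixingSubgroup))
    (w w' : HeightOneSpectrum (𝓞 (L ⊔ M : IntermediateField K (AlgebraicClosure K))))
    (hw : PrimeOver (L ⊔ M) P w) (hw' : PrimeOver (L ⊔ M) Q w') : w' = w := by
  obtain ⟨h, hh, rfl⟩ := v4r_gal M P Q u hP hQ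
  obtain ⟨t, ⟨ht1, ht2⟩, ht3⟩ := h1 h⁻¹
  have h2 : t⁻¹ * h⁻¹ ∈ (L ⊔ M : IntermediateField K (AlgebraicClosure K)).fixingSubgroup := by
    rw [IntermediateField.fixingSubgroup_sup]
    exact ⟨ht3, M.fixingSubgroup.mul_mem (M.fixingSubgroup.inv_mem ht2)
      (M.fixingSubgroup.inv_mem hh)⟩
  have h3 := v4r_over (L ⊔ M) (h • P) w' hw' _ h2
  have h4 : (t⁻¹ * h⁻¹) • h • P = P := by
    rw [smul_smul, inv_mul_cancel_right, inv_smul_eq_iff]
    exact ((plc_decomp P t).1 ht1).symm
  rw [h4] at h3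
  refine HeightOneSpectrum.ext ?_
  rw [← h3.2, ← hw.2]

/-- The product of the local root numbers at the finite places: above each place of `M` with
bad reduction there is one place of `LM` (the decomposition group in `Gal(Kbar/M)` is transitive),
the relative index of the decomposition groups is `[L : K]`, odd; in the semistable case use
`local_semistable` for a Galois closure of `LM`; in the unramified case the relative indices over
`K` of the places of `M` and of `LM` have the same parity. At good places both sides are `1`. -/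
theorem v4_finprod (L : IntermediateField K (AlgebraicClosure K))
    [FiniteDimensional K L] (hodd : Odd (Module.finrank K L))
    (M : IntermediateField K (AlgebraicClosure K)) [FiniteDimensional K M]
    (A : Over (Spec (.of K))) [GrpObj A] [IsAbVar A] (W : LocalSigns K) (hW : IsRootNumbers A W)
    (hA : ∀ 𝔓 : Ideal (𝓞 (AlgebraicClosure K)), FinPrime 𝔓 → GoodAt A 𝔓 ∨
      (TransOn L (decompGrp K 𝔓 ⊓ M.fixingSubgroup) ∧
        (inertia K 𝔓 ⊆ ((L ⊔ M : IntermediateField K (AlgebraicClosure K)).fixingSubgroup :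
          Set (AlgebraicClosure K ≃ₐ[K] AlgebraicClosure K)) ∨ SemistableOver A ⊥ 𝔓))) :
    ∏ᶠ w : HeightOneSpectrum (𝓞 (L ⊔ M : IntermediateField K (AlgebraicClosure K))),
      W (L ⊔ M) w = ∏ᶠ u : HeightOneSpectrum (𝓞 M), W M u := by
  classical
  let N : IntermediateField K (AlgebraicClosure K) := L ⊔ M
  have hNf : FiniteDimensional K N := inferInstanceAs
    (FiniteDimensional K (L ⊔ M : IntermediateField K (AlgebraicClosure K)))
  have hMN : M ≤ N := le_sup_right
  have hle : N.fixingSubgroup ≤ M.fixingSubgroup :=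
    IntermediateField.fixingSubgroup_antitone hMN
  -- a prime over every place of `N`, and the place of `M` below
  have h1 : ∀ w : HeightOneSpectrum (𝓞 N), ∃ (P : Ideal (𝓞 (AlgebraicClosure K)))
      (v : HeightOneSpectrum (𝓞 K)) (u : HeightOneSpectrum (𝓞 M)),
      PrimeOver N P w ∧ Above P v ∧ PrimeOver M P u := by
    intro w
    have hint : Algebra.IsIntegral (𝓞 K) (𝓞 N) := inferInstance
    obtain ⟨𝔓, h𝔓⟩ := exists_above (w.under (𝓞 K))
    obtain ⟨σ, hσ⟩ := exists_translate N _ 𝔓 h𝔓 w rfl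
    obtain ⟨u, hu, -⟩ := exists_placeBelow M _ 𝔓 h𝔓 σ
    exact ⟨σ • 𝔓, _, u, hσ, above_smul _ 𝔓 h𝔓 σ, hu⟩
  choose P v π hP1 hP2 hP3 using h1
  have hπ : ∀ (w : HeightOneSpectrum (𝓞 N)) (Q : Ideal (𝓞 (AlgebraicClosure K))),
      PrimeOver N Q w → PrimeOver M Q (π w) := by
    intro w Q hQ
    obtain ⟨h, hh, rfl⟩ := v4r_gal N (P w) Q w (hP1 w) hQ
    exact v4r_over M (P w) (π w) (hP3 w) h (hle hh)
  have h2 : ∀ u : HeightOneSpectrum (𝓞 M),
      ∏ᶠ w : {w : HeightOneSpectrum (𝓞 N) // π w = u}, W N w.1 = W M u := by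
    intro u
    have hint : Algebra.IsIntegral (𝓞 K) (𝓞 M) := inferInstance
    obtain ⟨𝔓, h𝔓⟩ := exists_above (u.under (𝓞 K))
    obtain ⟨σ, hσ⟩ := exists_translate M _ 𝔓 h𝔓 u rfl
    obtain ⟨w₀, hw₀, -⟩ := exists_placeBelow N _ 𝔓 h𝔓 σ
    have hab : Above (σ • 𝔓) (u.under (𝓞 K)) := above_smul _ 𝔓 h𝔓 σ
    have hfin := vr_finPrime _ _ hab
    have hπ₀ : π w₀ = u := by
      refine HeightOneSpectrum.ext ?_
      rw [← (hπ w₀ _ hw₀).2, ← hσ.2]
    by_cases hone : ∀ w, π w = u → w = w₀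
    · have hU : Unique {w : HeightOneSpectrum (𝓞 N) // π w = u} :=
        ⟨⟨⟨w₀, hπ₀⟩⟩, fun w' => Subtype.ext (hone w'.1 w'.2)⟩
      rw [finprod_unique]
      have h3 : W N (default : {w : HeightOneSpectrum (𝓞 N) // π w = u}).1 = W N w₀ :=
        congrArg (W N) (hone _ (default : {w : HeightOneSpectrum (𝓞 N) // π w = u}).2)
      rw [h3]
      rcases hA (σ • 𝔓) hfin with hg | ⟨ht, hs⟩
      · rw [v4r_good A W hW _ N w₀ _ hab hw₀ hg, v4r_good A W hW _ M u _ hab hσ hg]
      · exact v4r_local A W hW _ (σ • 𝔓) hab L M hodd ht hs w₀ hw₀ u hσ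
    · push Not at hone
      obtain ⟨w₁, hw₁, hne⟩ := hone
      have hgood : ∀ w, π w = u → ∀ Q, PrimeOver N Q w → ∀ v', Above Q v' → GoodAt A Q := by
        intro w hw Q hQ v' hv'
        rcases hA Q (vr_finPrime _ _ hv') with hg | ⟨ht, -⟩
        · exact hg
        · exfalso
          have hQu : PrimeOver M Q u := hw ▸ hπ w Q hQ
          have e1 := v4r_one L M Q (σ • 𝔓) u hQu hσ ht w w₀ hQ hw₀
          have e2 := v4r_one L M Q (P w₁) u hQu (hw₁ ▸ hP3 w₁) ht w w₁ hQ (hP1 w₁)
          exact hne (e2.trans e1.symm)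
      have h3 : ∀ w : {w : HeightOneSpectrum (𝓞 N) // π w = u}, W N w.1 = 1 := fun w =>
        v4r_good A W hW _ N w.1 _ (hP2 w.1) (hP1 w.1) (hgood w.1 w.2 _ (hP1 w.1) _ (hP2 w.1))
      rw [finprod_eq_one_of_forall_eq_one h3]
      exact (v4r_good A W hW _ M u _ hab hσ (hgood w₀ hπ₀ _ hw₀ _ hab)).symm
  have h3 := (find_fib π (W N) (hW.almost N)).2
  refine h3.trans ?_
  exact finprod_congr h2

/-- The sign formula, for any signature. -/
theorem v4_sign_gen (L : IntermediateField K (AlgebraicClosure K))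
    [FiniteDimensional K L] (hodd : Odd (Module.finrank K L))
    (M : IntermediateField K (AlgebraicClosure K)) [FiniteDimensional K M]
    (A : Over (Spec (.of K))) [GrpObj A] [IsAbVar A] (W : LocalSigns K) (hW : IsRootNumbers A W)
    (hA : ∀ 𝔓 : Ideal (𝓞 (AlgebraicClosure K)), FinPrime 𝔓 → GoodAt A 𝔓 ∨
      (TransOn L (decompGrp K 𝔓 ⊓ M.fixingSubgroup) ∧
        (inertia K 𝔓 ⊆ ((L ⊔ M : IntermediateField K (AlgebraicClosure K)).fixingSubgroup :
          Set (AlgebraicClosure K ≃ₐ[K] AlgebraicClosure K)) ∨ SemistableOver A ⊥ 𝔓))) (g : ℕ) :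
    signOver W g (L ⊔ M) = (-1) ^ (g * (Nat.card (InfinitePlace
      (L ⊔ M : IntermediateField K (AlgebraicClosure K))) + Nat.card (InfinitePlace M))) *
        signOver W g M := by
  unfold signOver
  rw [v4_finprod L hodd M A W hW hA, ← mul_assoc, ← pow_add]
  congr 1
  have h1 : g * (Nat.card (InfinitePlace (L ⊔ M : IntermediateField K (AlgebraicClosure K))) +
      Nat.card (InfinitePlace M)) + g * Nat.card (InfinitePlace M) =
      g * Nat.card (InfinitePlace (L ⊔ M : IntermediateField K (AlgebraicClosure K))) +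
        2 * (g * Nat.card (InfinitePlace M)) := by ring
  rw [h1, pow_add, pow_mul (-1 : ℤ) 2, neg_one_sq, one_pow, mul_one]

/-- As `vr_sign` (V/RootA, RootB, RootC), for the extension `LM / M`, in the totally real case. -/
theorem v4_sign (L : IntermediateField K (AlgebraicClosure K))
    [FiniteDimensional K L] (hodd : Odd (Module.finrank K L))
    (M : IntermediateField K (AlgebraicClosure K))
    [FiniteDimensional K M] (hT : TransOn L M.fixingSubgroup) (hreal : TotReal (L ⊔ M))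
    (A : Over (Spec (.of K))) [GrpObj A] [IsAbVar A] (W : LocalSigns K) (hW : IsRootNumbers A W)
    (hA : ∀ 𝔓 : Ideal (𝓞 (AlgebraicClosure K)), FinPrime 𝔓 → GoodAt A 𝔓 ∨
      (TransOn L (decompGrp K 𝔓 ⊓ M.fixingSubgroup) ∧
        (inertia K 𝔓 ⊆ ((L ⊔ M : IntermediateField K (AlgebraicClosure K)).fixingSubgroup :
          Set (AlgebraicClosure K ≃ₐ[K] AlgebraicClosure K)) ∨ SemistableOver A ⊥ 𝔓))) (g : ℕ) :
    signOver W g (L ⊔ M) = signOver W g M := by
  unfold signOver
  rw [v4r_inf g L M hodd hT hreal, v4_finprod L hodd M A W hW hA]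

end Pool.Agent.H.MP_ac3185_nt
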