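import Pool.Agent.H.MP_ac3185_nt.V4.TowerB
import Pool.Agent.H.MP_ac3185_nt.V4.Types
import Pool.Agent.H.MP_ac3185_nt.V.Unit
import Pool.Agent.H.MP_ac3185_nt.V.RootA

/-! The class condition over `K`, for general types. -/

set_option autoImplicit false

open NumberField IsDedekindDomain
open scoped Pointwise

namespace Pool.Agent.H.MP_ac3185_nt

universe u

variable {K : Type u} [Field K] [NumberField K] (L : IntermediateField K (AlgebraicClosure K))
  [FiniteDimensional K L]

/-- The primes at which the classes are unramified. -/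
def unrSet (T : Set (HeightOneSpectrum (𝓞 K))) : Set (Ideal (𝓞 (AlgebraicClosure K))) :=
  {𝔓 | ∃ v, Above 𝔓 v ∧ (2 ∉ v.asIdeal ∨ v ∈ T)}

/-- The embeddings at which the classes are positive. -/
def posSet (R : Set (K →+* ℂ)) : Set (AlgebraicClosure K →+* ℂ) :=
  {e | e.comp (algebraMap K (AlgebraicClosure K)) ∈ R}

theorem v4_stable_unr (T : Set (HeightOneSpectrum (𝓞 K))) : StableU (unrSet T) := by
  rintro g 𝔓 ⟨v, hv, hT⟩
  exact ⟨v, above_smul v 𝔓 hv g, hT⟩

omit [NumberField K] in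
theorem v4_stable_pos (R : Set (K →+* ℂ)) : StableP (posSet R) := by
  intro g e he
  have h1 : (e.comp (g : AlgebraicClosure K →+* AlgebraicClosure K)).comp
      (algebraMap K (AlgebraicClosure K)) = e.comp (algebraMap K (AlgebraicClosure K)) := by
    ext x
    show e (g (algebraMap K (AlgebraicClosure K) x)) = e (algebraMap K (AlgebraicClosure K) x)
    rw [g.commutes]
  show (e.comp (g : AlgebraicClosure K →+* AlgebraicClosure K)).comp
      (algebraMap K (AlgebraicClosure K)) ∈ R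
  rw [h1]
  exact he

/-- The class condition over `K`, if there is only one place of `L` above each place above `2`
outside `T`. -/
theorem v4_base_gen (hodd : Odd (Module.finrank K L)) (T : Set (HeightOneSpectrum (𝓞 K)))
    (R : Set (K →+* ℂ)) (h2 : ∀ v ∉ T, 2 ∈ v.asIdeal → OneAbove L v)
    (hcls : ∀ a ∈ selClasses L T R, IsSquare a) : TrivSel L ⊤ (unrSet T) (posSet R) := by
  rintro a ⟨ha0, ha, ⟨d, hd, hN⟩, hU, hP⟩
  have haL : a ∈ L := vn_mem L fun s hs => ha s ⟨hs, Subgroup.mem_top s⟩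
  obtain ⟨d', rfl⟩ := vn_base (fun s => hd s (Subgroup.mem_top s))
  obtain ⟨a', rfl⟩ : ∃ a' : L, (a' : AlgebraicClosure K) = a := ⟨⟨a, haL⟩, rfl⟩
  have ha0' : a' ≠ 0 := by
    rintro rfl
    exact ha0 rfl
  have hN' : Algebra.norm K a' = d' * d' := by
    apply (algebraMap K (AlgebraicClosure K)).injective
    rw [← v4_norm_top, hN, map_mul]
  have hd0 : algebraMap K (AlgebraicClosure K) d' ≠ 0 := by
    intro h
    exact v4_norm_ne L ⊤ ha0 (by rw [hN, h, mul_zero])
  have hsq : IsSquare a' := by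
    refine hcls a' ⟨ha0', ⟨d', hN'⟩, ?_, ?_, ?_⟩
    · intro v 𝔓 h𝔓 hT s hs hsL z hz
      exact hU 𝔓 ⟨v, h𝔓, hT⟩ s hs ⟨hsL, Subgroup.mem_top s⟩ z hz
    · intro v 𝔓 h𝔓 h2v hT
      obtain ⟨c, hc, hc0, x, y, hx, hy, hxy⟩ := vu_evenNorm L hodd (vr_finPrime v 𝔓 h𝔓)
        (h2 v hT h2v 𝔓 h𝔓) ha0'
      rw [hN', map_mul] at hxy
      refine ⟨c / algebraMap K (AlgebraicClosure K) d', div_mem hc (L.algebraMap_mem d'),
        div_ne_zero hc0 hd0, x, y, hx, hy, ?_⟩
      field_simp
      linear_combination hxy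
    · intro e he hL
      exact hP e he fun x hx => hL x (vn_mem L fun s hs => hx s ⟨hs, Subgroup.mem_top s⟩)
  obtain ⟨b, hb⟩ := hsq
  refine ⟨(b : AlgebraicClosure K), fun s hs => vn_fix L b.2 hs.1, ?_⟩
  rw [hb]
  rfl

end Pool.Agent.H.MP_ac3185_nt
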