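import Pool.Agent.H.MP_ac3185_nt.R.PlA

/-! Representatives of cosets and the norm. -/

set_option autoImplicit false

open CategoryTheory AlgebraicGeometry NumberField IsDedekindDomain
open scoped MonObj Pointwise

namespace Pool.Agent.H.MP_ac3185_nt

universe u

section field

variable {K : Type u} [Field K]

/-- The subgroup `S` of the Galois group acts transitively on the embeddings of `L`. For
`S = Gal(Kbar/M)` this says that `L ⊗ M` is a field, for the decomposition group of `𝔓` that there
is only one place of `L` below the conjugates of `𝔓` (`OnePlace`). -/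
def TransOn (L : IntermediateField K (AlgebraicClosure K))
    (S : Subgroup (AlgebraicClosure K ≃ₐ[K] AlgebraicClosure K)) : Prop :=
  ∀ s : AlgebraicClosure K ≃ₐ[K] AlgebraicClosure K, ∃ t ∈ S, t⁻¹ * s ∈ L.fixingSubgroup

/-- `a` is fixed by `S`. -/
def FixG (S : Subgroup (AlgebraicClosure K ≃ₐ[K] AlgebraicClosure K)) (a : AlgebraicClosure K) :
    Prop :=
  ∀ s ∈ S, s a = a

open Classical in
/-- A representative in `G` of the coset `q` of `Gal(Kbar/L)`, if there is one. -/
noncomputable def repG (L : IntermediateField K (AlgebraicClosure K))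
    (G : Subgroup (AlgebraicClosure K ≃ₐ[K] AlgebraicClosure K))
    (q : (AlgebraicClosure K ≃ₐ[K] AlgebraicClosure K) ⧸ L.fixingSubgroup) :
    AlgebraicClosure K ≃ₐ[K] AlgebraicClosure K :=
  if h : ∃ g ∈ G, (g : (AlgebraicClosure K ≃ₐ[K] AlgebraicClosure K) ⧸ L.fixingSubgroup) = q then
    h.choose else 1

/-- The norm from the field fixed by `Gal(Kbar/L) ∩ G` to the field fixed by `G`. -/
noncomputable def normG (L : IntermediateField K (AlgebraicClosure K))
    (G : Subgroup (AlgebraicClosure K ≃ₐ[K] AlgebraicClosure K)) (a : AlgebraicClosure K) :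
    AlgebraicClosure K :=
  ∏ᶠ q : (AlgebraicClosure K ≃ₐ[K] AlgebraicClosure K) ⧸ L.fixingSubgroup, repG L G q a

end field

end Pool.Agent.H.MP_ac3185_nt
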