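import Pool.Agent.H.MP_ac3185_nt.V.Norm
import Pool.Agent.H.MP_ac3185_nt.R.PlA
import Pool.Agent.H.MP_ac3185_nt.V4.Rep

/-! Definitions for the theorem on towers: the relative class conditions over the fields fixed by a
subgroup `G` of the Galois group. -/

set_option autoImplicit false

open CategoryTheory AlgebraicGeometry NumberField IsDedekindDomain
open scoped MonObj Pointwise

namespace Pool.Agent.H.MP_ac3185_nt

universe u

section field

variable {K : Type u} [Field K]

/-- The field given by `H` with a square root of `a` adjoined is unramified at `𝔓`. -/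
def UnrG (H : Subgroup (AlgebraicClosure K ≃ₐ[K] AlgebraicClosure K))
    (𝔓 : Ideal (𝓞 (AlgebraicClosure K))) (a : AlgebraicClosure K) : Prop :=
  ∀ s ∈ inertia K 𝔓, s ∈ H → ∀ z, z * z = a → s z = z

/-- If `e` is real on the field given by `H` then `e a` is positive. -/
def PosG (H : Subgroup (AlgebraicClosure K ≃ₐ[K] AlgebraicClosure K))
    (e : AlgebraicClosure K →+* ℂ) (a : AlgebraicClosure K) : Prop :=
  (∀ x, FixG H x → starRingEnd ℂ (e x) = e x) → ∃ t : ℝ, 0 < t ∧ e a = t

/-- The elements `a` of the field `N` given by `Gal(Kbar/L) ∩ G` whose norm to the field given by `G`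
is a square in it, with `N(√a) / N` unramified at the primes in `U` and `a` positive at the `e` in `P`
which are real on `N`. -/
def selG (L : IntermediateField K (AlgebraicClosure K))
    (G : Subgroup (AlgebraicClosure K ≃ₐ[K] AlgebraicClosure K))
    (U : Set (Ideal (𝓞 (AlgebraicClosure K)))) (P : Set (AlgebraicClosure K →+* ℂ)) :
    Set (AlgebraicClosure K) :=
  {a | a ≠ 0 ∧ FixG (L.fixingSubgroup ⊓ G) a ∧ (∃ d, FixG G d ∧ normG L G a = d * d) ∧
    (∀ 𝔓 ∈ U, UnrG (L.fixingSubgroup ⊓ G) 𝔓 a) ∧ ∀ e ∈ P, PosG (L.fixingSubgroup ⊓ G) e a}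

/-- All elements of `selG L G U P` are squares. -/
def TrivSel (L : IntermediateField K (AlgebraicClosure K))
    (G : Subgroup (AlgebraicClosure K ≃ₐ[K] AlgebraicClosure K))
    (U : Set (Ideal (𝓞 (AlgebraicClosure K)))) (P : Set (AlgebraicClosure K →+* ℂ)) : Prop :=
  ∀ a ∈ selG L G U P, ∃ b, FixG (L.fixingSubgroup ⊓ G) b ∧ a = b * b

/-- A set of primes which is stable under the Galois group. -/
def StableU (U : Set (Ideal (𝓞 (AlgebraicClosure K)))) : Prop :=
  ∀ g : AlgebraicClosure K ≃ₐ[K] AlgebraicClosure K, ∀ 𝔓 ∈ U, g • 𝔓 ∈ U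

/-- A set of embeddings which is stable under the Galois group. -/
def StableP (P : Set (AlgebraicClosure K →+* ℂ)) : Prop :=
  ∀ g : AlgebraicClosure K ≃ₐ[K] AlgebraicClosure K, ∀ e ∈ P,
    e.comp (g : AlgebraicClosure K →+* AlgebraicClosure K) ∈ P

/-- `G'` has index at most `2` in `G`. -/
def IndexTwo (G' G : Subgroup (AlgebraicClosure K ≃ₐ[K] AlgebraicClosure K)) : Prop :=
  ∀ s ∈ G, ∀ t ∈ G, s ∉ G' → t ∉ G' → s * t ∈ G'

/-- `C(LM) = C(M) + f(B(LM))`. -/
def SplitOver (L M : IntermediateField K (AlgebraicClosure K)) {B C : Over (Spec (.of K))}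
    [GrpObj B] [IsAbVar B] [GrpObj C] [IsAbVar C] (f : B ⟶ C) : Prop :=
  ∀ y, (∀ s ∈ L.fixingSubgroup, s ∈ M.fixingSubgroup → act C s y = y) →
    ∃ y0 x, (∀ s ∈ M.fixingSubgroup, act C s y0 = y0) ∧
      (∀ s ∈ L.fixingSubgroup, s ∈ M.fixingSubgroup → act B s x = x) ∧ y = y0 + onPts f x

end field

end Pool.Agent.H.MP_ac3185_nt
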