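import Pool.Agent.H.MP_ac3185_nt.V4.Root
import Pool.Agent.H.MP_ac3185_nt.V4.Types

/-! The number of the infinite places. -/

set_option autoImplicit false

open NumberField IsDedekindDomain

namespace Pool.Agent.H.MP_ac3185_nt

universe u

variable {K : Type u} [Field K]

/-- There are `[N : K]` embeddings of `N` above an embedding of `K`. -/
theorem v4i_card [CharZero K] (N : IntermediateField K (AlgebraicClosure K))
    [FiniteDimensional K N] (e : K →+* ℂ) :
    Nat.card {a : N →+* ℂ // a.comp (algebraMap K N) = e} = Module.finrank K N := by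
  let _ : Algebra K ℂ := e.toAlgebra
  rw [← AlgHom.card K N ℂ, ← Nat.card_eq_fintype_card]
  exact Nat.card_congr
    ⟨fun a => { a.1 with commutes' := fun x => RingHom.congr_fun a.2 x },
      fun b => ⟨b.toRingHom, RingHom.ext fun x => b.commutes x⟩, fun a => rfl, fun b => rfl⟩

/-- The number of real embeddings of `N` above an embedding of `K`. -/
noncomputable def v4iR (N : IntermediateField K (AlgebraicClosure K)) (e : K →+* ℂ) : ℕ :=
  Nat.card {x : {a : N →+* ℂ // a.comp (algebraMap K N) = e} // ComplexEmbedding.IsReal x.1}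

/-- There are no real embeddings above an embedding which is not real. -/
theorem v4i_zero (N : IntermediateField K (AlgebraicClosure K)) (e : K →+* ℂ)
    (he : ¬ ComplexEmbedding.IsReal e) : v4iR N e = 0 := by
  unfold v4iR
  have : IsEmpty {x : {a : N →+* ℂ // a.comp (algebraMap K N) = e} //
      ComplexEmbedding.IsReal x.1} := ⟨fun x => he (x.1.2 ▸ x.2.comp (algebraMap K N))⟩
  exact Nat.card_of_isEmpty

/-- Two embeddings of `LM` which agree on `L` and on `M` are equal. -/
theorem v4i_ext (L M : IntermediateField K (AlgebraicClosure K))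
    (c c' : (L ⊔ M : IntermediateField K (AlgebraicClosure K)) →+* ℂ)
    (hL : ∀ x (hx : x ∈ L), c ⟨x, (le_sup_left : L ≤ L ⊔ M) hx⟩ =
      c' ⟨x, (le_sup_left : L ≤ L ⊔ M) hx⟩)
    (hM : ∀ x (hx : x ∈ M), c ⟨x, (le_sup_right : M ≤ L ⊔ M) hx⟩ =
      c' ⟨x, (le_sup_right : M ≤ L ⊔ M) hx⟩) : c = c' := by
  let S : IntermediateField K (AlgebraicClosure K) :=
    ((RingHom.eqLocusField c c').map (algebraMap
      (L ⊔ M : IntermediateField K (AlgebraicClosure K)) (AlgebraicClosure K))).toIntermediateField
      (fun x => ⟨algebraMap K _ x, hL _ (L.algebraMap_mem x), rfl⟩)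
  have h1 : L ≤ S := fun x hx => ⟨⟨x, (le_sup_left : L ≤ L ⊔ M) hx⟩, hL x hx, rfl⟩
  have h2 : M ≤ S := fun x hx => ⟨⟨x, (le_sup_right : M ≤ L ⊔ M) hx⟩, hM x hx, rfl⟩
  have h3 : L ⊔ M ≤ S := sup_le h1 h2
  refine RingHom.ext fun x => ?_
  obtain ⟨y, hy, hyx⟩ := h3 x.2
  have h4 : y = x := Subtype.ext hyx
  rw [← h4]
  exact hy

variable [NumberField K]

theorem v4i_finite (N : IntermediateField K (AlgebraicClosure K)) [FiniteDimensional K N] :
    Finite (N →+* ℂ) := by
  have hN : NumberField N := NumberField.of_module_finite K N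
  infer_instance

/-- The parity of the number of real embeddings above a real embedding. -/
theorem v4i_mod (N : IntermediateField K (AlgebraicClosure K)) [FiniteDimensional K N]
    (e : K →+* ℂ) (he : ComplexEmbedding.IsReal e) :
    Module.finrank K N ≡ v4iR N e [MOD 2] := by
  classical
  have hfin := v4i_finite N
  have hft : Fintype {a : N →+* ℂ // a.comp (algebraMap K N) = e} := Fintype.ofFinite _
  let f : Function.End {a : N →+* ℂ // a.comp (algebraMap K N) = e} := fun a =>
    ⟨ComplexEmbedding.conjugate a.1, by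
      have h1 : (ComplexEmbedding.conjugate a.1).comp (algebraMap K N) =
        ComplexEmbedding.conjugate (a.1.comp (algebraMap K N)) := rfl
      rw [h1, a.2]
      exact ComplexEmbedding.isReal_iff.1 he⟩
  have hf : f ^ 2 ^ 1 = 1 := by
    refine funext fun a => Subtype.ext ?_
    rw [pow_one, pow_two]
    exact star_star a.1
  have h1 := Equiv.Perm.card_fixedPoints_modEq (p := 2) hf
  rw [← Nat.card_eq_fintype_card, ← Nat.card_eq_fintype_card, v4i_card N e] at h1
  have h2 : Nat.card (Function.fixedPoints f) = v4iR N e := by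
    refine Nat.card_congr (Equiv.subtypeEquivRight fun x => ?_)
    rw [ComplexEmbedding.isReal_iff]
    exact Subtype.ext_iff
  rw [h2] at h1
  exact h1

/-- All embeddings are real. -/
theorem v4i_all (N : IntermediateField K (AlgebraicClosure K)) [FiniteDimensional K N]
    (e : K →+* ℂ) (hN : TotReal N) : v4iR N e = Module.finrank K N := by
  rw [← v4i_card N e]
  refine Nat.card_congr (Equiv.subtypeUnivEquiv fun x => ?_)
  rw [ComplexEmbedding.isReal_iff]
  refine RingHom.ext fun y => ?_
  let _ : Algebra N ℂ := x.1.toAlgebra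
  let φ : AlgebraicClosure K →ₐ[N] ℂ := IsAlgClosed.lift
  have h1 := hN φ.toRingHom y
  have h2 : φ.toRingHom y = x.1 y := φ.commutes y
  rw [h2] at h1
  exact h1

/-- The embeddings of `LM` are the pairs. -/
theorem v4i_pair (L M : IntermediateField K (AlgebraicClosure K)) [FiniteDimensional K L]
    [FiniteDimensional K M] (hT : TransOn L M.fixingSubgroup) (e : K →+* ℂ) :
    v4iR (L ⊔ M) e = v4iR L e * v4iR M e := by
  have hL := v4i_finite L
  have hM := v4i_finite M
  let F : {c : (L ⊔ M : IntermediateField K (AlgebraicClosure K)) →+* ℂ //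
      c.comp (algebraMap K (L ⊔ M : IntermediateField K (AlgebraicClosure K))) = e} →
      {a : L →+* ℂ // a.comp (algebraMap K L) = e} ×
        {b : M →+* ℂ // b.comp (algebraMap K M) = e} := fun c =>
    (⟨c.1.comp (IntermediateField.inclusion (le_sup_left : L ≤ L ⊔ M)).toRingHom,
      RingHom.ext fun x => RingHom.congr_fun c.2 x⟩,
     ⟨c.1.comp (IntermediateField.inclusion (le_sup_right : M ≤ L ⊔ M)).toRingHom,
      RingHom.ext fun x => RingHom.congr_fun c.2 x⟩)
  have hF : Function.Injective F := by
    intro c c' h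
    refine Subtype.ext (v4i_ext L M c.1 c'.1 (fun x hx => ?_) fun x hx => ?_)
    · exact RingHom.congr_fun (congrArg (fun p => p.1.1) h) ⟨x, hx⟩
    · exact RingHom.congr_fun (congrArg (fun p => p.2.1) h) ⟨x, hx⟩
  have hb : Function.Bijective F := by
    refine hF.bijective_of_nat_card_le ?_
    rw [Nat.card_prod, v4i_card, v4i_card, v4i_card, v4r_degree L M hT]
  unfold v4iR
  rw [← Nat.card_prod]
  refine Nat.card_congr (((Equiv.ofBijective F hb).subtypeEquiv ?_).trans
    Equiv.subtypeProdEquivProd)
  intro c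
  constructor
  · intro h
    exact ⟨h.comp _, h.comp _⟩
  · rintro ⟨h1, h2⟩
    rw [ComplexEmbedding.isReal_iff] at h1 h2 ⊢
    refine v4i_ext L M _ _ (fun x hx => ?_) fun x hx => ?_
    · exact RingHom.congr_fun h1 ⟨x, hx⟩
    · exact RingHom.congr_fun h2 ⟨x, hx⟩

/-- The number of the infinite places. -/
theorem v4i_two (N : IntermediateField K (AlgebraicClosure K)) [FiniteDimensional K N] :
    2 * Nat.card (InfinitePlace N) = Module.finrank ℚ K * Module.finrank K N +
      ∑ e : K →+* ℂ, v4iR N e := by
  classical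
  have hN : NumberField N := NumberField.of_module_finite K N
  have h1 : ∑ e : K →+* ℂ, v4iR N e = InfinitePlace.nrRealPlaces N := by
    unfold v4iR
    rw [← Nat.card_sigma, ← InfinitePlace.card_real_embeddings, ← Nat.card_eq_fintype_card]
    exact Nat.card_congr
      ⟨fun x => ⟨x.2.1.1, x.2.2⟩, fun a => ⟨a.1.comp (algebraMap K N), ⟨a.1, rfl⟩, a.2⟩,
        fun ⟨e, ⟨a, ha⟩, h⟩ => by subst ha; rfl, fun a => rfl⟩
  have h2 := InfinitePlace.card_add_two_mul_card_eq_rank N
  have h3 := InfinitePlace.card_eq_nrRealPlaces_add_nrComplexPlaces N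
  rw [h1, Module.finrank_mul_finrank ℚ K N, ← h2, Nat.card_eq_fintype_card, h3]
  ring

/-- The parity of the number of the infinite places of `LM` and `M`. -/
theorem v4r_even (L M : IntermediateField K (AlgebraicClosure K)) [FiniteDimensional K L]
    [FiniteDimensional K M] (hodd : Odd (Module.finrank K L)) (hT : TransOn L M.fixingSubgroup)
    (g : ℕ) (h : TotReal L ∨ Even (Module.finrank K M)) :
    Even (g * (Nat.card (InfinitePlace (L ⊔ M : IntermediateField K (AlgebraicClosure K))) +
      Nat.card (InfinitePlace M))) := by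
  refine Even.mul_left ?_ g
  have hLM := v4i_two (L ⊔ M)
  have hM := v4i_two M
  rw [v4r_degree L M hT, Finset.sum_congr rfl fun e _ => v4i_pair L M hT e] at hLM
  rcases h with h | h
  · rw [Finset.sum_congr rfl fun e _ => by rw [v4i_all L e h], ← Finset.mul_sum] at hLM
    have h1 : Nat.card (InfinitePlace (L ⊔ M : IntermediateField K (AlgebraicClosure K))) =
        Module.finrank K L * Nat.card (InfinitePlace M) := by
      have h2 : 2 * Nat.card (InfinitePlace
          (L ⊔ M : IntermediateField K (AlgebraicClosure K))) =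
          2 * (Module.finrank K L * Nat.card (InfinitePlace M)) := by
        rw [hLM, mul_left_comm 2, hM]
        ring
      omega
    rw [h1]
    have h3 : Module.finrank K L * Nat.card (InfinitePlace M) + Nat.card (InfinitePlace M) =
        (Module.finrank K L + 1) * Nat.card (InfinitePlace M) := by ring
    rw [h3]
    exact hodd.add_one.mul_right _
  · have h1 : 4 ∣ ∑ e : K →+* ℂ, v4iR M e * (v4iR L e + 1) := by
      refine Finset.dvd_sum fun e _ => ?_
      by_cases he : ComplexEmbedding.IsReal e
      · have h2 : 2 ∣ v4iR M e :=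
          (Nat.modEq_zero_iff_dvd.1 ((v4i_mod M e he).symm.trans
            (Nat.modEq_zero_iff_dvd.2 h.two_dvd)))
        have h3 : 2 ∣ v4iR L e + 1 := by
          have h4 : Module.finrank K L + 1 ≡ v4iR L e + 1 [MOD 2] := (v4i_mod L e he).add_right 1
          exact Nat.modEq_zero_iff_dvd.1 (h4.symm.trans
            (Nat.modEq_zero_iff_dvd.2 hodd.add_one.two_dvd))
        exact mul_dvd_mul h2 h3
      · rw [v4i_zero M e he, zero_mul]
        exact dvd_zero 4
    have h2 : 4 ∣ Module.finrank ℚ K * (Module.finrank K M * (Module.finrank K L + 1)) :=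
      Dvd.dvd.mul_left (mul_dvd_mul h.two_dvd hodd.add_one.two_dvd) _
    have h3 : 2 * (Nat.card (InfinitePlace
        (L ⊔ M : IntermediateField K (AlgebraicClosure K))) + Nat.card (InfinitePlace M)) =
        Module.finrank ℚ K * (Module.finrank K M * (Module.finrank K L + 1)) +
        ∑ e : K →+* ℂ, v4iR M e * (v4iR L e + 1) := by
      have h4 : ∑ e : K →+* ℂ, v4iR M e * (v4iR L e + 1) =
          ∑ e : K →+* ℂ, v4iR L e * v4iR M e + ∑ e : K →+* ℂ, v4iR M e := by
        rw [← Finset.sum_add_distrib]
        exact Finset.sum_congr rfl fun e _ => by ring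
      rw [mul_add, hLM, hM, h4]
      ring
    obtain ⟨a, ha⟩ := dvd_add h2 h1
    rw [← h3] at ha
    exact ⟨a, by omega⟩

end Pool.Agent.H.MP_ac3185_nt
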