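import Pool.Agent.H.MP_ac3185_nt.V4.Types

/-! Positivity at the real places of `K` with only one real place of `L` above them. -/

set_option autoImplicit false

open NumberField IsDedekindDomain
open scoped ComplexConjugate

namespace Pool.Agent.H.MP_ac3185_nt

universe u

/-- If there is only one real embedding of `L` above a real embedding of `K`, then it is positive at
the elements whose norm is a square. -/
theorem v4p_pos {K : Type u} [Field K] [CharZero K] (L : IntermediateField K (AlgebraicClosure K))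
    [FiniteDimensional K L] (e : AlgebraicClosure K →+* ℂ)
    (hreal : ∀ x ∈ L, starRingEnd ℂ (e x) = e x)
    (hone : OneReal L (e.comp (algebraMap K (AlgebraicClosure K)))) (a : L) (ha : a ≠ 0)
    (hN : IsSquare (Algebra.norm K a)) : ∃ t : ℝ, 0 < t ∧ e (a : AlgebraicClosure K) = t := by
  let _ : Algebra K ℂ := (e.comp (algebraMap K (AlgebraicClosure K))).toAlgebra
  have hK : ∀ k : K, conj (algebraMap K ℂ k) = algebraMap K ℂ k := fun k =>
    hreal _ (L.algebraMap_mem k)
  let σ₀ : L →ₐ[K] ℂ := { (e.comp (algebraMap L (AlgebraicClosure K))) with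
    commutes' := fun k => rfl }
  let c : (L →ₐ[K] ℂ) → (L →ₐ[K] ℂ) := fun σ => { (starRingEnd ℂ).comp σ.toRingHom with
    commutes' := fun k => by
      show conj (σ (algebraMap K L k)) = _
      rw [σ.commutes, hK] }
  have hc : ∀ σ x, c σ x = conj (σ x) := fun σ x => rfl
  have hcc : ∀ σ, c (c σ) = σ := fun σ => by
    ext x
    rw [hc, hc, Complex.conj_conj]
  have hex : ∀ σ : L →ₐ[K] ℂ, ∃ e' : AlgebraicClosure K →+* ℂ,
      e'.comp (algebraMap K (AlgebraicClosure K)) = e.comp (algebraMap K (AlgebraicClosure K)) ∧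
      ∀ x : L, e' x = σ x := fun σ => by
    obtain ⟨τ, hτ⟩ := IsAlgClosed.surjective_domRestrict_of_isAlgebraic (M := ℂ) (K := K)
      (L := L) (E := AlgebraicClosure K) σ
    refine ⟨τ.toRingHom, ?_, fun x => ?_⟩
    · ext k
      exact τ.commutes k
    · rw [← hτ]
      rfl
  have huniq : ∀ σ : L →ₐ[K] ℂ, c σ = σ → σ = σ₀ := fun σ hσ => by
    obtain ⟨e', he', hx⟩ := hex σ
    ext x
    have h1 := hone e e' rfl he' hreal (fun y hy => by
      have h2 := hx ⟨y, hy⟩
      have h3 : conj (σ ⟨y, hy⟩) = σ ⟨y, hy⟩ := by rw [← hc, hσ]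
      show conj (e' y) = e' y
      rw [show e' y = σ ⟨y, hy⟩ from h2, h3]) x x.2
    show σ x = e x
    rw [h1, hx]
  obtain ⟨α, hα⟩ := Field.exists_primitive_element K L
  have hext : ∀ σ τ : L →ₐ[K] ℂ, σ α = τ α → σ = τ := fun σ τ h => by
    have h1 : (σ.comp (⊤ : IntermediateField K L).val) = τ.comp (⊤ : IntermediateField K L).val :=
      IntermediateField.algHom_ext_of_eq_adjoin _ hα.symm fun x hx => by
        rw [Set.mem_singleton_iff] at hx
        subst hx
        exact h
    ext x
    exact DFunLike.congr_fun h1 ⟨x, IntermediateField.mem_top⟩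
  have hcim : ∀ σ, (c σ α).im = - (σ α).im := fun σ => by
    rw [hc, Complex.conj_im]
  have him : ∀ σ, (σ α).im = 0 ↔ σ = σ₀ := fun σ => by
    constructor
    · intro h
      apply huniq
      apply hext
      rw [hc, Complex.conj_eq_iff_im.2 h]
    · rintro rfl
      rw [← Complex.conj_eq_iff_im]
      exact hreal _ α.2
  obtain ⟨d, hd⟩ := hN
  classical
  have hprod := Algebra.norm_eq_prod_embeddings K ℂ a
  let P : Finset (L →ₐ[K] ℂ) := Finset.univ.filter fun σ => 0 < (σ α).im
  let N : Finset (L →ₐ[K] ℂ) := Finset.univ.filter fun σ => (σ α).im < 0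
  have hsplit : ∏ σ : L →ₐ[K] ℂ, σ a = σ₀ a * ((∏ σ ∈ P, σ a) * ∏ σ ∈ N, σ a) := by
    have h1 : (Finset.univ : Finset (L →ₐ[K] ℂ)) = insert σ₀ (P ∪ N) := by
      ext σ
      simp only [Finset.mem_univ, Finset.mem_insert, Finset.mem_union, P, N, Finset.mem_filter,
        true_and, true_iff, ← him σ]
      rcases lt_trichotomy (σ α).im 0 with h | h | h
      · exact Or.inr (Or.inr h)
      · exact Or.inl h
      · exact Or.inr (Or.inl h)
    have h2 : σ₀ ∉ P ∪ N := by
      intro h
      have h3 := (him σ₀).2 rfl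
      simp only [Finset.mem_union, P, N, Finset.mem_filter, Finset.mem_univ, true_and, h3,
        lt_irrefl, or_self] at h
    have h3 : Disjoint P N := by
      rw [Finset.disjoint_left]
      intro σ h4 h5
      simp only [P, N, Finset.mem_filter, Finset.mem_univ, true_and] at h4 h5
      exact lt_asymm h4 h5
    rw [h1, Finset.prod_insert h2, Finset.prod_union h3]
  have hconj : (∏ σ ∈ N, σ a) = conj (∏ σ ∈ P, σ a) := by
    rw [map_prod]
    refine Finset.prod_bij' (fun σ _ => c σ) (fun σ _ => c σ) ?_ ?_ (fun σ _ => hcc σ)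
      (fun σ _ => hcc σ) fun σ _ => ?_
    · intro σ h
      simp only [P, N, Finset.mem_filter, Finset.mem_univ, true_and] at h ⊢
      rw [hcim]
      linarith
    · intro σ h
      simp only [P, N, Finset.mem_filter, Finset.mem_univ, true_and] at h ⊢
      rw [hcim]
      linarith
    · rw [hc, Complex.conj_conj]
  set Q : ℂ := ∏ σ ∈ P, σ a with hQ
  obtain ⟨r, hr⟩ := Complex.conj_eq_iff_real.1 (hreal a a.2)
  obtain ⟨δ, hδ⟩ := Complex.conj_eq_iff_real.1 (hK d)
  have h0 : e (a : AlgebraicClosure K) ≠ 0 := by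
    rw [Ne, map_eq_zero]
    exact fun h => ha (Subtype.ext h)
  have hd0 : δ ≠ 0 := by
    rintro rfl
    have h1 : algebraMap K ℂ d = 0 := by rw [hδ, Complex.ofReal_zero]
    rw [map_eq_zero] at h1
    rw [h1, mul_zero, Algebra.norm_eq_zero_iff] at hd
    exact ha hd
  have h1 : (δ : ℂ) * δ = r * (Q * conj Q) := by
    rw [← hδ, ← map_mul, ← hd, hprod, hsplit, hconj]
    show e (a : AlgebraicClosure K) * (Q * conj Q) = _
    rw [hr]
  rw [Complex.mul_conj] at h1
  have h2 : δ * δ = r * Complex.normSq Q := by exact_mod_cast h1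
  refine ⟨r, ?_, hr⟩
  have h3 : 0 < δ * δ := mul_self_pos.2 hd0
  rw [h2] at h3
  exact pos_of_mul_pos_left h3 (Complex.normSq_nonneg Q)

/-- In `selClasses L T R` the embeddings `ε` in `R` with `OneReal L ε` can be omitted. -/
theorem v4p_sel {K : Type u} [Field K] [NumberField K]
    (L : IntermediateField K (AlgebraicClosure K)) [FiniteDimensional K L]
    (T : Set (HeightOneSpectrum (𝓞 K))) (R : Set (K →+* ℂ)) (a : L)
    (ha : a ∈ selClasses L T {ε ∈ R | ¬ OneReal L ε}) : a ∈ selClasses L T R := by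
  obtain ⟨h1, h2, h3, h4, h5⟩ := ha
  refine ⟨h1, h2, h3, h4, fun e he hreal => ?_⟩
  by_cases hone : OneReal L (e.comp (algebraMap K (AlgebraicClosure K)))
  · exact v4p_pos L e hreal hone a h1 h2
  · exact h5 e ⟨he, hone⟩ hreal

end Pool.Agent.H.MP_ac3185_nt
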