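import Pool.Agent.H.MP_ac3185_nt.V4.NormG
import Pool.Agent.H.MP_ac3185_nt.V.Chain
import Pool.Agent.H.MP_ac3185_nt.V.DivJ

/-! Chains over `M` and the rank. -/

set_option autoImplicit false

open CategoryTheory AlgebraicGeometry NumberField IsDedekindDomain
open scoped MonObj

namespace Pool.Agent.H.MP_ac3185_nt

universe u

section trace

/-- The sum over the cosets of `H`, with representatives in `S`, is fixed by `S`. -/
theorem v4_trace {G : Type*} [Group G] (H S : Subgroup G) [Fintype (G ⧸ H)] {M : Type*}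
    [AddCommGroup M] (φ : G → M →+ M) (hφ : ∀ g h, φ (g * h) = (φ g).comp (φ h)) (ρ : G ⧸ H → G)
    (hρ : ∀ q, ρ q ∈ S) (hρ' : ∀ q, (ρ q : G ⧸ H) = q) (b : M)
    (hb : ∀ h ∈ H, h ∈ S → φ h b = b) (g : G) (hg : g ∈ S) :
    φ g (∑ q : G ⧸ H, φ (ρ q) b) = ∑ q : G ⧸ H, φ (ρ q) b := by
  rw [map_sum]
  have h1 : ∀ q : G ⧸ H, φ g (φ (ρ q) b) = φ (ρ (g • q)) b := by
    intro q
    have h1 : ((g * ρ q : G) : G ⧸ H) = g • q := by
      rw [← smul_eq_mul, ← MulAction.Quotient.smul_coe, hρ']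
    have h2 : (ρ (g • q))⁻¹ * (g * ρ q) ∈ H := by
      rw [← QuotientGroup.eq, hρ', h1]
    have h5 : (ρ (g • q))⁻¹ * (g * ρ q) ∈ S :=
      S.mul_mem (S.inv_mem (hρ _)) (S.mul_mem hg (hρ q))
    have h3 : φ (g * ρ q) b = φ (ρ (g • q)) b := by
      have h4 : g * ρ q = ρ (g • q) * ((ρ (g • q))⁻¹ * (g * ρ q)) := by group
      rw [h4, hφ, AddMonoidHom.comp_apply, hb _ h2 h5]
    rw [← h3, hφ, AddMonoidHom.comp_apply]
  rw [Finset.sum_congr rfl fun q _ => h1 q]
  exact Equiv.sum_comp (MulAction.toPerm g) (fun q : G ⧸ H => φ (ρ q) b)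

end trace

variable {K : Type u} [Field K] [NumberField K] (L M : IntermediateField K (AlgebraicClosure K))

/-- As `vc_chain` (V/Chain). -/
theorem v4_chain (hstep : ∀ {B C : Over (Spec (.of K))} [GrpObj B] [IsAbVar B] [GrpObj C]
      [IsAbVar C] (f : B ⟶ C), Step L f → SplitOver L M f)
    (A : Over (Spec (.of K))) [GrpObj A] [IsAbVar A]
    {B : Over (Spec (.of K))} [GrpObj B] [IsAbVar B] (h : A ⟶ B) (hh : Steps L A B h) :
    SplitOver L M h := by
  induction hh with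
  | refl =>
    intro y hy
    refine ⟨0, y, fun s _ => map_zero (galHom A s), hy, ?_⟩
    rw [vc_onPts_id, zero_add]
  | step h f _ hf ih =>
    intro y hy
    obtain ⟨y0, x, hy0, hx, rfl⟩ := hstep f hf y hy
    obtain ⟨x0, z, hx0, hz, rfl⟩ := ih x hx
    have := hf.hom
    refine ⟨y0 + onPts f x0, z, fun s hs => ?_, hz, ?_⟩
    · rw [vc_act_add, hy0 s hs, vc_onPts_act, hx0 s hs]
    · rw [vc_onPts_add, vc_onPts_comp, add_assoc]

/-- If `x` lies in `A(M) + 2 ^ k A(LM)` for all `k`, then `x` has a multiple in `A(M)`. -/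
theorem v4_multiple [FiniteDimensional K L] [FiniteDimensional K M]
    (hT : TransOn L M.fixingSubgroup) (A : Over (Spec (.of K))) [GrpObj A] [IsAbVar A]
    (x : Pts A (L ⊔ M : IntermediateField K (AlgebraicClosure K)))
    (hs : ∀ k : ℕ, ∃ y z, x = ptsa_j A (le_sup_right : M ≤ L ⊔ M) y + (2 ^ k : ℕ) • z) :
    ∃ N : ℕ, Odd N ∧ ∃ y, ptsa_j A (le_sup_right : M ≤ L ⊔ M) y =
      (N * Module.finrank K L) • x := by
  let _ := vn_finiteIndex L
  let _ := L.fixingSubgroup.fintypeQuotientOfFiniteIndex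
  let Q := (AlgebraicClosure K ≃ₐ[K] AlgebraicClosure K) ⧸ L.fixingSubgroup
  set n := Module.finrank K L with hn
  have hcard : Fintype.card Q = n := vn_card L
  have hsup : ∀ s : AlgebraicClosure K ≃ₐ[K] AlgebraicClosure K, s ∈ L.fixingSubgroup →
      s ∈ M.fixingSubgroup → s ∈ (L ⊔ M).fixingSubgroup := by
    intro s h1 h2
    rw [IntermediateField.fixingSubgroup_sup]
    exact ⟨h1, h2⟩
  -- the trace of a point
  have htr : ∀ x : Pts A (L ⊔ M : IntermediateField K (AlgebraicClosure K)), ∃ y : Pts A M,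
      toBar A (L ⊔ M) (ptsa_j A (le_sup_right : M ≤ L ⊔ M) y) =
        ∑ q : Q, galHom A (repG L M.fixingSubgroup q) (toBar A (L ⊔ M) x) := by
    intro x
    obtain ⟨y, hy⟩ := sp_bar_of_fixed A M
      (∑ q : Q, galHom A (repG L M.fixingSubgroup q) (toBar A (L ⊔ M) x)) (fun g hg =>
      v4_trace L.fixingSubgroup M.fixingSubgroup (fun s => galHom A s)
        (fun s s' => ptsb_galHom_mul A s s') (repG L M.fixingSubgroup)
        (fun q => (v4_rep L M.fixingSubgroup hT q).1) (fun q => (v4_rep L M.fixingSubgroup hT q).2)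
        (toBar A (L ⊔ M) x) (fun s h1 h2 => sp_bar_fix A (L ⊔ M) s (hsup s h1 h2) x) g hg)
    exact ⟨y, by rw [sp_bar_j, hy]⟩
  choose T hT' using htr
  let j := ptsa_j A (le_sup_right : M ≤ L ⊔ M)
  have hinj := sp_bar_inj A (L ⊔ M)
  have hj : ∀ y, T (j y) = n • y := by
    intro y
    apply sp_j_inj A (le_sup_right : M ≤ L ⊔ M)
    apply hinj
    rw [hT']
    have h1 : ∀ q : Q, galHom A (repG L M.fixingSubgroup q) (toBar A (L ⊔ M) (j y)) =
        toBar A (L ⊔ M) (j y) := by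
      intro q
      have h2 : toBar A (L ⊔ M) (j y) = toBar A M y := sp_bar_j A _ y
      rw [h2]
      exact sp_bar_fix A M _ (v4_rep L M.fixingSubgroup hT q).1 y
    rw [Finset.sum_congr rfl fun q _ => h1 q, Finset.sum_const, Finset.card_univ, hcard, map_nsmul,
      map_nsmul]
  have hTadd : ∀ x z, T (x + z) = T x + T z := by
    intro x z
    apply sp_j_inj A (le_sup_right : M ≤ L ⊔ M)
    apply hinj
    rw [hT', map_add (ptsa_j A _), map_add (toBar A (L ⊔ M)) (ptsa_j A _ (T x)), hT', hT',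
      ← Finset.sum_add_distrib]
    exact Finset.sum_congr rfl fun q _ => by rw [map_add, map_add]
  let T' : Pts A (L ⊔ M : IntermediateField K (AlgebraicClosure K)) →+ Pts A M :=
    AddMonoidHom.mk' T hTadd
  let Dn : Pts A (L ⊔ M : IntermediateField K (AlgebraicClosure K)) →+
    Pts A (L ⊔ M : IntermediateField K (AlgebraicClosure K)) :=
    n • AddMonoidHom.id _ - j.comp T'
  have hD : ∀ x, Dn x = n • x - j (T x) := fun x => rfl
  have hDj : ∀ y, Dn (j y) = 0 := by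
    intro y
    rw [hD, hj, map_nsmul, sub_self]
  obtain ⟨N, hN, h1⟩ := vd_torsion (L ⊔ M) A (Dn x) (by
    intro k
    obtain ⟨y, z, h2⟩ := hs k
    refine ⟨Dn z, ?_⟩
    rw [h2, map_add, hDj, zero_add, map_nsmul])
  refine ⟨N, hN, N • T x, ?_⟩
  rw [hD, smul_sub, sub_eq_zero] at h1
  rw [map_nsmul, mul_smul]
  exact h1.symm

/-- As `vd_rank` (V/DivJ), with the trace from `LM` to `M`: the sum over the `repG L G q`,
`G = Gal(Kbar/M)`. -/
theorem v4_rank [FiniteDimensional K L] [FiniteDimensional K M]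
    (hodd : Odd (Module.finrank K L)) (hT : TransOn L M.fixingSubgroup)
    (A : Over (Spec (.of K))) [GrpObj A] [IsAbVar A] (m : ℕ)
    (hm : 0 < m) (h : A ⟶ A) (hh : ∀ x, onPts h x = (2 ^ m : ℕ) • x) (hs : SplitOver L M h) :
    (∀ x : Pts A (L ⊔ M : IntermediateField K (AlgebraicClosure K)), ∃ n : ℕ, Odd n ∧
      n • x ∈ (ptsa_j A (le_sup_right : M ≤ L ⊔ M)).range) ∧
      Module.rank ℤ (Pts A (L ⊔ M : IntermediateField K (AlgebraicClosure K))) =
        Module.rank ℤ (Pts A M) ∧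
      rk A (L ⊔ M) = rk A M := by
  set j := ptsa_j A (le_sup_right : M ≤ L ⊔ M) with hj
  have key : ∀ x : Pts A (L ⊔ M : IntermediateField K (AlgebraicClosure K)),
      ∃ y z, x = j y + (2 ^ m : ℕ) • z := by
    intro x
    obtain ⟨y0, z, hy0, hz, he⟩ := hs (toBar A (L ⊔ M) x) (fun s h1 h2 =>
      sp_bar_fix A (L ⊔ M) s (by
        rw [IntermediateField.fixingSubgroup_sup]
        exact ⟨h1, h2⟩) x)
    obtain ⟨y1, rfl⟩ := sp_bar_of_fixed A M y0 hy0
    obtain ⟨z1, rfl⟩ := sp_bar_of_fixed A (L ⊔ M) z (fun s h1 => by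
      rw [IntermediateField.fixingSubgroup_sup] at h1
      exact hz s h1.1 h1.2)
    refine ⟨y1, z1, ?_⟩
    apply sp_bar_inj A (L ⊔ M)
    rw [he, hh, map_add, hj, sp_bar_j, map_nsmul]
  have key2 : ∀ (k : ℕ) (x : Pts A (L ⊔ M : IntermediateField K (AlgebraicClosure K))),
      ∃ y z, x = j y + ((2 ^ m) ^ k : ℕ) • z := by
    intro k
    induction k with
    | zero => exact fun x => ⟨0, x, by rw [map_zero, pow_zero, one_smul, zero_add]⟩
    | succ k ih =>
      intro x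
      obtain ⟨y, z, h1⟩ := ih x
      obtain ⟨y', z', h2⟩ := key z
      refine ⟨y + ((2 ^ m) ^ k : ℕ) • y', z', ?_⟩
      rw [h1, h2, smul_add, map_add, map_nsmul, pow_succ, mul_smul, add_assoc]
  have key3 : ∀ (k : ℕ) (x : Pts A (L ⊔ M : IntermediateField K (AlgebraicClosure K))),
      ∃ y z, x = j y + (2 ^ k : ℕ) • z := by
    intro k x
    obtain ⟨y, z, h1⟩ := key2 k x
    refine ⟨y, (2 ^ (m * k - k) : ℕ) • z, ?_⟩
    rw [h1, ← mul_smul, ← pow_mul, ← pow_add]
    congr 3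
    have : k ≤ m * k := Nat.le_mul_of_pos_left k hm
    omega
  have h1 : ∀ x : Pts A (L ⊔ M : IntermediateField K (AlgebraicClosure K)),
      ∃ N : ℕ, Odd N ∧ N • x ∈ j.range := by
    intro x
    obtain ⟨N, hN, y, hy⟩ := v4_multiple L M hT A x (fun k => key3 k x)
    exact ⟨N * Module.finrank K L, hN.mul hodd, y, hy⟩
  let R : Submodule ℤ (Pts A (L ⊔ M : IntermediateField K (AlgebraicClosure K))) :=
    LinearMap.range j.toIntLinearMap
  have hinj : Function.Injective j.toIntLinearMap := sp_j_inj A _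
  have h4 : Module.rank ℤ (Pts A M) =
      Module.rank ℤ (Pts A (L ⊔ M : IntermediateField K (AlgebraicClosure K))) := by
    rw [← vd_rank_eq R (fun x => by
      obtain ⟨N, hN, y, hy⟩ := h1 x
      exact ⟨N, hN, y, hy⟩)]
    exact (LinearEquiv.ofInjective j.toIntLinearMap hinj).rank_eq
  refine ⟨h1, h4.symm, ?_⟩
  unfold rk Module.finrank
  rw [h4]

end Pool.Agent.H.MP_ac3185_nt
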