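import Pool.Agent.H.MP_ac3185_nt.V4.NormG
import Pool.Agent.H.MP_ac3185_nt.V2.Step

/-! Parallel transfer over `M`. -/

set_option autoImplicit false

open CategoryTheory AlgebraicGeometry NumberField IsDedekindDomain
open scoped MonObj

namespace Pool.Agent.H.MP_ac3185_nt

universe u

section par

variable {K : Type u} [Field K]

/-- Parallel transfer of a quadratic character and of a cocycle with values in `{0, t}`, from
`Gal(Kbar/L) ∩ G` to `G`; `ρ` is a system of representatives in `G` of the cosets of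
`Gal(Kbar/L)`. -/
theorem v4s_par (L : IntermediateField K (AlgebraicClosure K))
    (G : Subgroup (AlgebraicClosure K ≃ₐ[K] AlgebraicClosure K))
    [Fintype ((AlgebraicClosure K ≃ₐ[K] AlgebraicClosure K) ⧸ L.fixingSubgroup)]
    (ρ : (AlgebraicClosure K ≃ₐ[K] AlgebraicClosure K) ⧸ L.fixingSubgroup →
      AlgebraicClosure K ≃ₐ[K] AlgebraicClosure K)
    (hρ : ∀ q, ρ q ∈ G ∧
      (ρ q : (AlgebraicClosure K ≃ₐ[K] AlgebraicClosure K) ⧸ L.fixingSubgroup) = q)
    (B : Over (Spec (.of K))) [GrpObj B] [IsAbVar B] (t : Pts B (AlgebraicClosure K))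
    (ht2 : t + t = 0) (htG : ∀ s, act B s t = t) (r : AlgebraicClosure K)
    (b : Pts B (AlgebraicClosure K))
    (h : ∀ s ∈ L.fixingSubgroup, s ∈ G →
      (s r = r ∧ act B s b = b) ∨ (s r = -r ∧ act B s b = b + t))
    (g : AlgebraicClosure K ≃ₐ[K] AlgebraicClosure K) (hg : g ∈ G) :
    (g (∏ q, ρ q r) = ∏ q, ρ q r ∧
      act B g (∑ q, act B (ρ q) b) = ∑ q, act B (ρ q) b) ∨
    (g (∏ q, ρ q r) = -∏ q, ρ q r ∧
      act B g (∑ q, act B (ρ q) b) = ∑ q, act B (ρ q) b + t) := by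
  classical
  have step : ∀ q : (AlgebraicClosure K ≃ₐ[K] AlgebraicClosure K) ⧸ L.fixingSubgroup,
      (g (ρ q r) = ρ (g • q) r ∧ act B g (act B (ρ q) b) = act B (ρ (g • q)) b) ∨
      (g (ρ q r) = -ρ (g • q) r ∧ act B g (act B (ρ q) b) = act B (ρ (g • q)) b + t) := by
    intro q
    have h1 : ((g * ρ q : AlgebraicClosure K ≃ₐ[K] AlgebraicClosure K) :
        (AlgebraicClosure K ≃ₐ[K] AlgebraicClosure K) ⧸ L.fixingSubgroup) = g • q := by
      rw [← smul_eq_mul, ← MulAction.Quotient.smul_coe, (hρ q).2]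
    have h2 : (ρ (g • q))⁻¹ * (g * ρ q) ∈ L.fixingSubgroup := by
      rw [← QuotientGroup.eq, (hρ _).2, h1]
    have h2' : (ρ (g • q))⁻¹ * (g * ρ q) ∈ G :=
      mul_mem (inv_mem (hρ _).1) (mul_mem hg (hρ q).1)
    have h3 : g (ρ q r) = ρ (g • q) (((ρ (g • q))⁻¹ * (g * ρ q)) r) := by
      rw [← AlgEquiv.mul_apply, ← AlgEquiv.mul_apply, mul_inv_cancel_left]
    have h4 : act B g (act B (ρ q) b) =
        act B (ρ (g • q)) (act B ((ρ (g • q))⁻¹ * (g * ρ q)) b) := by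
      rw [← v2s_act_mul, ← v2s_act_mul, mul_inv_cancel_left]
    rcases h _ h2 h2' with ⟨h5, h6⟩ | ⟨h5, h6⟩
    · left
      rw [h3, h4, h5, h6]
      exact ⟨rfl, rfl⟩
    · right
      rw [h3, h4, h5, h6, map_neg, vc_act_add, htG]
      exact ⟨rfl, rfl⟩
  have key : ∀ F : Finset ((AlgebraicClosure K ≃ₐ[K] AlgebraicClosure K) ⧸ L.fixingSubgroup),
      (∏ q ∈ F, g (ρ q r) = ∏ q ∈ F, ρ (g • q) r ∧
        ∑ q ∈ F, act B g (act B (ρ q) b) = ∑ q ∈ F, act B (ρ (g • q)) b) ∨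
      (∏ q ∈ F, g (ρ q r) = -∏ q ∈ F, ρ (g • q) r ∧
        ∑ q ∈ F, act B g (act B (ρ q) b) = ∑ q ∈ F, act B (ρ (g • q)) b + t) := by
    intro F
    induction F using Finset.induction_on with
    | empty => left; simp
    | insert q F hq ih =>
      rw [Finset.prod_insert hq, Finset.prod_insert hq, Finset.sum_insert hq, Finset.sum_insert hq]
      rcases step q with ⟨h1, h2⟩ | ⟨h1, h2⟩ <;> rcases ih with ⟨h3, h4⟩ | ⟨h3, h4⟩
      · left
        rw [h1, h2, h3, h4]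
        exact ⟨rfl, rfl⟩
      · right
        rw [h1, h2, h3, h4]
        exact ⟨by ring, by abel⟩
      · right
        rw [h1, h2, h3, h4]
        exact ⟨by ring, by abel⟩
      · left
        rw [h1, h2, h3, h4]
        refine ⟨by ring, ?_⟩
        have h5 : act B (ρ (g • q)) b + t + (∑ q ∈ F, act B (ρ (g • q)) b + t) =
            act B (ρ (g • q)) b + ∑ q ∈ F, act B (ρ (g • q)) b + (t + t) := by abel
        rw [h5, ht2, add_zero]
  have h1 : ∏ q, ρ (g • q) r = ∏ q, ρ q r :=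
    Equiv.prod_comp (MulAction.toPerm g) (fun q : (AlgebraicClosure K ≃ₐ[K]
        AlgebraicClosure K) ⧸ L.fixingSubgroup => ρ q r)
  have h2 : ∑ q, act B (ρ (g • q)) b = ∑ q, act B (ρ q) b :=
    Equiv.sum_comp (MulAction.toPerm g) (fun q : (AlgebraicClosure K ≃ₐ[K]
        AlgebraicClosure K) ⧸ L.fixingSubgroup => act B (ρ q) b)
  have h3 := key Finset.univ
  rw [h1, h2] at h3
  rw [map_prod, v2s_act_sum]
  exact h3

end par

end Pool.Agent.H.MP_ac3185_nt
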