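import Pool.Agent.H.MP_ac3185_nt.V4.Local
import Pool.Agent.H.MP_ac3185_nt.V4.StepA
import Pool.Agent.H.MP_ac3185_nt.V2.Defs

/-! One step over `M`: `C(LM) = C(M) + f(B(LM))`. -/

set_option autoImplicit false

open CategoryTheory AlgebraicGeometry NumberField IsDedekindDomain
open scoped MonObj

namespace Pool.Agent.H.MP_ac3185_nt

universe u

variable {K : Type u} [Field K] [NumberField K] (L : IntermediateField K (AlgebraicClosure K))
  [FiniteDimensional K L]

/-- One step over `M` for an isogeny `f` of degree `2`: if the class condition over `M` for the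
primes `U` and the embeddings `P` holds, and for the primes in `U` the kernel of `f` is etale or there
is one place of `LM` (the prime not above `2`), and `f` has real fibres at the embeddings in `P`, then
`C(LM) = C(M) + f(B(LM))`. -/
theorem v4_step_gen (hodd : Odd (Module.finrank K L))
    (M : IntermediateField K (AlgebraicClosure K)) [FiniteDimensional K M]
    (hT : TransOn L M.fixingSubgroup) (U : Set (Ideal (𝓞 (AlgebraicClosure K))))
    (P : Set (AlgebraicClosure K →+* ℂ)) (hcls : TrivSel L M.fixingSubgroup U P)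
    {B C : Over (Spec (.of K))} [GrpObj B] [IsAbVar B] [GrpObj C] [IsAbVar C] (f : B ⟶ C)
    (hf : DegTwo f)
    (hU : ∀ 𝔓 ∈ U, FinPrime 𝔓 ∧
      (EtaleAt f 𝔓 ∨ (2 ∉ 𝔓 ∧ TransOn L (decompGrp K 𝔓 ⊓ M.fixingSubgroup))))
    (hP : ∀ e ∈ P, ∀ s : AlgebraicClosure K ≃ₐ[K] AlgebraicClosure K,
      (∀ z, e (s z) = starRingEnd ℂ (e z)) →
      ∀ x, act C s (onPts f x) = onPts f x → act B s x = x) : SplitOver L M f := by
  classical
  have hfi := vn_finiteIndex L
  let _ := L.fixingSubgroup.fintypeQuotientOfFiniteIndex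
  have hfd : FiniteDimensional K (L ⊔ M : IntermediateField K (AlgebraicClosure K)) :=
    IntermediateField.finiteDimensional_sup L M
  have hsup : ∀ s, s ∈ (L ⊔ M : IntermediateField K (AlgebraicClosure K)).fixingSubgroup ↔
      s ∈ L.fixingSubgroup ⊓ M.fixingSubgroup := by
    intro s
    rw [IntermediateField.fixingSubgroup_sup]
  have hmon := hf.hom
  obtain ⟨t, ht0, ht⟩ := hf.ker
  have hft : onPts f t = 0 := (ht t).2 (Or.inr rfl)
  have ht2 : t + t = 0 := by
    have h1 : onPts f (t + t) = 0 := by rw [vc_onPts_add, hft, add_zero]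
    rcases (ht _).1 h1 with h2 | h2
    · exact h2
    · exact absurd (add_eq_left.1 h2) ht0
  have htG : ∀ s, act B s t = t := by
    intro s
    have h1 : onPts f (act B s t) = 0 := by
      rw [← vc_onPts_act, hft, v2s_act_zero]
    rcases (ht _).1 h1 with h2 | h2
    · exfalso
      apply ht0
      have h3 : act B s⁻¹ (act B s t) = t := by
        rw [← v2s_act_mul, inv_mul_cancel, v2s_act_one]
      rw [← h3, h2, v2s_act_zero]
    · exact h2
  intro Q hQ
  obtain ⟨b, r, hb, hr, hdat⟩ := v2s_data (L ⊔ M) f hf.surj t ht ht2 htG Q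
    (fun s hs => hQ s ((hsup s).1 hs).1 ((hsup s).1 hs).2)
  have h' : ∀ s ∈ L.fixingSubgroup, s ∈ M.fixingSubgroup →
      (s r = r ∧ act B s b = b) ∨ (s r = -r ∧ act B s b = b + t) :=
    fun s hs hs' => hdat s ((hsup s).2 ⟨hs, hs'⟩)
  have hnorm : ∀ a, normG L M.fixingSubgroup a = ∏ q, repG L M.fixingSubgroup q a :=
    fun a => finprod_eq_prod_of_fintype _
  obtain ⟨R, hR⟩ : ∃ R, R = ∏ q, repG L M.fixingSubgroup q r := ⟨_, rfl⟩
  obtain ⟨S, hS⟩ : ∃ S, S = ∑ q, act B (repG L M.fixingSubgroup q) b := ⟨_, rfl⟩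
  have hRS : ∀ g ∈ M.fixingSubgroup, (g R = R ∧ act B g S = S) ∨
      (g R = -R ∧ act B g S = S + t) := by
    intro g hg
    rw [hR, hS]
    exact v4s_par L M.fixingSubgroup (repG L M.fixingSubgroup) (v4_rep L M.fixingSubgroup hT) B t
      ht2 htG r b h' g hg
  have hnr : normG L M.fixingSubgroup r = R := by rw [hnorm, hR]
  have hR0 : R ≠ 0 := by
    rw [← hnr]
    exact v4_norm_ne L M.fixingSubgroup hr
  -- the element `a`
  have hafix : FixG (L.fixingSubgroup ⊓ M.fixingSubgroup) (r * r) := by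
    intro s hs
    rcases h' s hs.1 hs.2 with ⟨h1, -⟩ | ⟨h1, -⟩
    · rw [map_mul, h1]
    · rw [map_mul, h1]
      ring
  have hNa : normG L M.fixingSubgroup (r * r) = R * R := by
    rw [v4_norm_mul, hnr]
  have hNfix : FixG M.fixingSubgroup (R * R) := by
    rw [← hNa]
    exact v4_norm_fix L M.fixingSubgroup hT hafix
  -- the element `u` and the point `β`
  obtain ⟨u, hu⟩ : ∃ u, u = r * R := ⟨_, rfl⟩
  obtain ⟨β, hβ⟩ : ∃ β, β = b + S := ⟨_, rfl⟩
  have hu0 : u ≠ 0 := by
    rw [hu]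
    exact mul_ne_zero hr hR0
  have hcase : ∀ s ∈ L.fixingSubgroup, s ∈ M.fixingSubgroup →
      (s u = u ∧ act B s β = β) ∨ (s u = -u ∧ act B s β = β + t) := by
    intro s hs hs'
    rw [hu, hβ]
    rcases h' s hs hs' with ⟨h1, h2⟩ | ⟨h1, h2⟩ <;> rcases hRS s hs' with ⟨h3, h4⟩ | ⟨h3, h4⟩
    · left
      rw [map_mul, h1, h3, vc_act_add, h2, h4]
      exact ⟨rfl, rfl⟩
    · right
      rw [map_mul, h1, h3, vc_act_add, h2, h4]
      exact ⟨by ring, by abel⟩
    · right
      rw [map_mul, h1, h3, vc_act_add, h2, h4]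
      exact ⟨by ring, by abel⟩
    · left
      rw [map_mul, h1, h3, vc_act_add, h2, h4]
      refine ⟨by ring, ?_⟩
      have h5 : b + t + (S + t) = b + S + (t + t) := by abel
      rw [h5, ht2, add_zero]
  have hiff : ∀ s ∈ L.fixingSubgroup, s ∈ M.fixingSubgroup → act B s β = β → s u = u := by
    intro s hs hs' h
    rcases hcase s hs hs' with h2 | h2
    · exact h2.1
    · rw [h2.2] at h
      exact absurd (add_eq_left.1 h) ht0
  have hfS : ∀ g ∈ M.fixingSubgroup, act C g (onPts f S) = onPts f S := by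
    intro g hg
    rw [vc_onPts_act]
    rcases hRS g hg with ⟨-, h2⟩ | ⟨-, h2⟩
    · rw [h2]
    · rw [h2, vc_onPts_add, hft, add_zero]
  have hfβ : onPts f β = Q + onPts f S := by
    rw [hβ, vc_onPts_add, hb]
  -- the element `c`
  have hc0 : u * u ≠ 0 := mul_ne_zero hu0 hu0
  have hcfix : FixG (L.fixingSubgroup ⊓ M.fixingSubgroup) (u * u) := by
    intro s hs
    rcases hcase s hs.1 hs.2 with ⟨h1, -⟩ | ⟨h1, -⟩
    · rw [map_mul, h1]
    · rw [map_mul, h1]
      ring
  obtain ⟨k, hk⟩ := id hodd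
  have hcN : normG L M.fixingSubgroup (u * u) = (R * R) ^ (k + 1) * (R * R) ^ (k + 1) := by
    have h1 : u * u = (r * r) * (R * R) := by
      rw [hu]
      ring
    rw [h1, v4_norm_mul, hNa, v4_norm_pow L M.fixingSubgroup hT hNfix, hk]
    ring
  have hdfix : FixG M.fixingSubgroup ((R * R) ^ (k + 1)) := by
    intro s hs
    rw [map_pow, hNfix s hs]
  have hcL : u * u ∈ (L ⊔ M : IntermediateField K (AlgebraicClosure K)) := by
    apply vn_mem
    intro s hs
    exact hcfix s ((hsup s).1 hs)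
  have hsqrt : ∀ s : AlgebraicClosure K ≃ₐ[K] AlgebraicClosure K, s u = u →
      ∀ z, z * z = u * u → s z = z := by
    intro s hs z hz
    rcases mul_self_eq_mul_self_iff.1 hz with h6 | h6
    · rw [h6, hs]
    · rw [h6, map_neg, hs]
  have hetale : ∀ 𝔓, EtaleAt f 𝔓 →
      UnrG (L.fixingSubgroup ⊓ M.fixingSubgroup) 𝔓 (u * u) := by
    intro 𝔓 hE s hs hsH
    obtain ⟨Z, _, ζ, hζ, hζ'⟩ := hE
    apply hsqrt
    apply hiff s hsH.1 hsH.2
    rcases hcase s hsH.1 hsH.2 with h | h
    · exact h.2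
    · exfalso
      have h4 := hζ s hs β
      rw [h.2, map_add] at h4
      exact ht0 (hζ' t hft (add_eq_left.1 h4))
  have hunr : ∀ 𝔓 ∈ U, UnrG (L.fixingSubgroup ⊓ M.fixingSubgroup) 𝔓 (u * u) := by
    intro 𝔓 h𝔓U
    obtain ⟨h𝔓, h | ⟨h2', h⟩⟩ := hU 𝔓 h𝔓U
    · exact hetale 𝔓 h
    · have h3 := v4_even L hodd M hT 𝔓 h𝔓 h hc0 hcfix hdfix hcN
      have h4 := vu_unr (L ⊔ M) h𝔓 h2' hcL h3
      intro s hs hsH z hz
      exact h4 s hs ((hsup s).2 hsH) z hz
  have hpos : ∀ e ∈ P, PosG (L.fixingSubgroup ⊓ M.fixingSubgroup) e (u * u) := by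
    intro e heP he
    have hLM : ∀ x ∈ (L ⊔ M : IntermediateField K (AlgebraicClosure K)),
        starRingEnd ℂ (e x) = e x := by
      intro x hx
      apply he
      intro s hs
      exact (IntermediateField.mem_fixingSubgroup_iff _ _).1 ((hsup s).2 hs) x hx
    obtain ⟨s, hs⟩ := v2s_conj e (fun x => hLM _ (algebraMap_mem _ x))
    have hsLM : s ∈ (L ⊔ M : IntermediateField K (AlgebraicClosure K)).fixingSubgroup := by
      rw [IntermediateField.mem_fixingSubgroup_iff]
      intro x hx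
      apply e.injective
      rw [hs]
      exact hLM x hx
    have hsH := (hsup s).1 hsLM
    have h5 : act B s β = β := by
      apply hP e heP s hs
      rw [hfβ, vc_act_add, hQ s hsH.1 hsH.2, hfS s hsH.2]
    have h6 := hiff s hsH.1 hsH.2 h5
    have h7 : starRingEnd ℂ (e u) = e u := by
      rw [← hs, h6]
    obtain ⟨y, hy⟩ := Complex.conj_eq_iff_real.1 h7
    refine ⟨y * y, ?_, ?_⟩
    · have hy0 : y ≠ 0 := by
        intro h
        rw [h] at hy
        exact hu0 (e.injective (by rw [hy, map_zero]; rfl))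
      exact mul_self_pos.2 hy0
    · rw [map_mul, hy]
      push_cast
      rfl
  obtain ⟨z, hz, hzu⟩ := hcls (u * u) ⟨hc0, hcfix, ⟨_, hdfix, hcN⟩, hunr, hpos⟩
  have hufix : ∀ s ∈ L.fixingSubgroup, s ∈ M.fixingSubgroup → s u = u := by
    intro s hs hs'
    rcases mul_self_eq_mul_self_iff.1 hzu with h6 | h6
    · rw [h6]
      exact hz s ⟨hs, hs'⟩
    · rw [h6, map_neg, hz s ⟨hs, hs'⟩]
  refine ⟨-onPts f S, β, fun s hs => ?_, fun s hs hs' => ?_, ?_⟩
  · rw [v2s_act_neg, hfS s hs]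
  · rcases hcase s hs hs' with h | h
    · exact h.2
    · exfalso
      rw [hufix s hs hs'] at h
      exact hu0 (self_eq_neg.1 h.1)
  · rw [hfβ]
    abel

end Pool.Agent.H.MP_ac3185_nt
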