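import Pool.Agent.H.MP_ac3185_nt.V4.TowerA

/-! Transitivity of the Galois groups of the fields contained in a Galois `2`-extension. -/

set_option autoImplicit false

open NumberField IsDedekindDomain

namespace Pool.Agent.H.MP_ac3185_nt

universe u

variable {K : Type u} [Field K] [NumberField K] (L : IntermediateField K (AlgebraicClosure K))
  [FiniteDimensional K L]

/-- Induction as in `v4_tower`, for a subgroup `S` of the Galois group. -/
theorem v4_tower_sub (hodd : Odd (Module.finrank K L))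
    (M F : IntermediateField K (AlgebraicClosure K)) [FiniteDimensional K M]
    [FiniteDimensional K F] [IsGalois K F] (hMF : M ≤ F) (h2 : IsPGroup 2 (F ≃ₐ[K] F))
    (S : Subgroup (AlgebraicClosure K ≃ₐ[K] AlgebraicClosure K)) (hS : TransOn L S) :
    TransOn L (S ⊓ M.fixingSubgroup) := by
  have hker : (AlgEquiv.restrictNormalHom (F := K) (K₁ := AlgebraicClosure K) F).ker
      = F.fixingSubgroup := F.restrictNormalHom_ker
  have hnormal : F.fixingSubgroup.Normal := hker ▸ MonoidHom.normal_ker _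
  have hle : F.fixingSubgroup ≤ M.fixingSubgroup :=
    IntermediateField.fixingSubgroup_antitone hMF
  obtain ⟨k, hk⟩ := IsPGroup.iff_card.1 h2
  have htop : F.fixingSubgroup.relIndex ⊤ = 2 ^ k := by
    rw [Subgroup.relIndex_top_right, ← hker, Subgroup.index_ker,
      MonoidHom.range_eq_top.2 (AlgEquiv.restrictNormalHom_surjective (AlgebraicClosure K)),
      Subgroup.card_top, hk]
  have hmul := Subgroup.relIndex_mul_relIndex F.fixingSubgroup M.fixingSubgroup ⊤ hle le_top
  obtain ⟨n, hnk, hn⟩ := (Nat.dvd_prime_pow Nat.prime_two).1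
    (htop ▸ Dvd.intro _ hmul : F.fixingSubgroup.relIndex M.fixingSubgroup ∣ 2 ^ k)
  have key : ∀ (j : ℕ) (G : Subgroup (AlgebraicClosure K ≃ₐ[K] AlgebraicClosure K)),
      M.fixingSubgroup ≤ G → F.fixingSubgroup.relIndex G = 2 ^ (n + j) → TransOn L (S ⊓ G) →
      TransOn L (S ⊓ M.fixingSubgroup) := by
    intro j
    induction j with
    | zero =>
      intro G hMG hj hT
      have h1 := Subgroup.relIndex_mul_relIndex F.fixingSubgroup M.fixingSubgroup G hle hMG
      rw [hn, hj, add_zero] at h1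
      have h3 : M.fixingSubgroup.relIndex G = 1 :=
        Nat.eq_of_mul_eq_mul_left (pow_pos (by norm_num : 0 < 2) n) (by rw [h1, mul_one])
      have hG : G = M.fixingSubgroup := le_antisymm (Subgroup.relIndex_eq_one.1 h3) hMG
      subst hG
      exact hT
    | succ j ih =>
      intro G hMG hj hT
      obtain ⟨G', hMG', hG', hj', hi⟩ := TowerA_group F.fixingSubgroup M.fixingSubgroup G hle hMG
        hn (k := n + j) (by rw [hj]; rfl) (Nat.le_add_right n j)
      have h3 : IndexTwo G' (S ⊓ G) := fun s hs t ht => hi s hs.2 t ht.2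
      refine ih G' hMG' hj' ?_
      have := v4_trans L hodd (S ⊓ G) G' hT h3
      rwa [inf_assoc, inf_eq_right.2 hG'] at this
  refine key (k - n) ⊤ le_top ?_ ?_
  · rw [htop, Nat.add_sub_cancel' hnk]
  · rwa [inf_top_eq]

theorem v4_tower_trans (hodd : Odd (Module.finrank K L))
    (M F : IntermediateField K (AlgebraicClosure K)) [FiniteDimensional K M]
    [FiniteDimensional K F] [IsGalois K F] (hMF : M ≤ F) (h2 : IsPGroup 2 (F ≃ₐ[K] F)) :
    TransOn L M.fixingSubgroup ∧
      ∀ 𝔓, OnePlace L 𝔓 → TransOn L (decompGrp K 𝔓 ⊓ M.fixingSubgroup) := by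
  refine ⟨?_, fun 𝔓 h𝔓 => v4_tower_sub L hodd M F hMF h2 _ h𝔓⟩
  have h3 := v4_tower_sub L hodd M F hMF h2 ⊤ (fun s => ⟨s, Subgroup.mem_top s, by simp⟩)
  rwa [top_inf_eq] at h3

end Pool.Agent.H.MP_ac3185_nt
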