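import Pool.Agent.H.MP_ac3185_nt.V4.Base
import Pool.Agent.H.MP_ac3185_nt.V4.Pos
import Pool.Agent.H.MP_ac3185_nt.V4.Step
import Pool.Agent.H.MP_ac3185_nt.V4.TowerT
import Pool.Agent.H.MP_ac3185_nt.V2.Count
import Pool.Agent.H.MP_ac3185_nt.V4.Rank
import Pool.Agent.H.MP_ac3185_nt.V4.Inf

/-! Rank stability in towers. -/

set_option autoImplicit false

open CategoryTheory AlgebraicGeometry NumberField IsDedekindDomain
open scoped MonObj

namespace Pool.Agent.H.MP_ac3185_nt

universe u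

/-- Rank stability over all extensions `M` of `K` which are contained in a Galois `2`-extension of
`K` and unramified at the finite places of `K` with more than one place of `L` above them and at the
real places of `K` with more than one real place of `L` above them. -/
theorem v4_main {K : Type u} [Field K] [NumberField K]
    (L : IntermediateField K (AlgebraicClosure K)) [FiniteDimensional K L]
    (hodd : Odd (Module.finrank K L))
    (A : Over (Spec (.of K))) [GrpObj A] [IsAbVar A]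
    (m : ℕ) (hm : 0 < m) (h : A ⟶ A) (hh : PureChain L A A h)
    (hmul : ∀ x, onPts h x = (2 ^ m : ℕ) • x)
    (M F : IntermediateField K (AlgebraicClosure K)) [FiniteDimensional K M]
    [FiniteDimensional K F] [IsGalois K F] (hMF : M ≤ F) (h2 : IsPGroup 2 (F ≃ₐ[K] F))
    (hinf : UnramifiedInf L M) (hfin : ∀ v, OneAbove L v ∨ UnramifiedIn M v) :
    (∀ x : Pts A (L ⊔ M : IntermediateField K (AlgebraicClosure K)), ∃ n : ℕ, Odd n ∧
      n • x ∈ (ptsa_j A (le_sup_right : M ≤ L ⊔ M)).range) ∧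
    Module.rank ℤ (Pts A (L ⊔ M : IntermediateField K (AlgebraicClosure K))) =
      Module.rank ℤ (Pts A M) ∧
    rk A (L ⊔ M) = rk A M ∧
    ∀ g : ℕ, topologicalKrullDim A.left = g → ∀ W : LocalSigns K, IsRootNumbers A W →
      (∀ v : HeightOneSpectrum (𝓞 K), (∀ 𝔓, Above 𝔓 v → GoodAt A 𝔓) ∨ (OneAbove L v ∧
        (UnramifiedIn (L ⊔ M) v ∨ ∀ 𝔓, Above 𝔓 v → SemistableOver A ⊥ 𝔓))) →
        signOver W g (L ⊔ M) = (-1) ^ (g * (Nat.card (InfinitePlace
          (L ⊔ M : IntermediateField K (AlgebraicClosure K))) + Nat.card (InfinitePlace M))) *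
            signOver W g M ∧
        (TotReal L ∨ M ≠ ⊥ → signOver W g (L ⊔ M) = signOver W g M ∧
          ((-1) ^ rk A (L ⊔ M) = signOver W g (L ⊔ M) ↔ (-1) ^ rk A M = signOver W g M)) := by
  have hbase : TransOn L M.fixingSubgroup ∧
      ∀ 𝔓, OnePlace L 𝔓 → TransOn L (decompGrp K 𝔓 ⊓ M.fixingSubgroup) :=
    v4_tower_trans L hodd M F hMF h2
  obtain ⟨hT, hone⟩ := hbase
  have hs : SplitOver L M h := by
    refine v4_pureChain L M (fun T R f hf => ?_) A h hh
    obtain ⟨-, -, h3⟩ := v4_tower L hodd M F hMF h2 _ _ (v4_stable_unr T)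
      (v4_stable_pos {ε ∈ R | ¬ OneReal L ε})
      (by
        rintro 𝔓 ⟨v, hv, -⟩
        rcases hfin v with h3 | h3
        · exact Or.inl (h3 𝔓 hv)
        · exact Or.inr (h3 𝔓 hv))
      (fun e he s hse => (hinf e s hse).resolve_left he.2)
      (v4_base_gen L hodd T _ hf.two fun a ha => hf.cls a (v4p_sel L T R a ha))
    refine v4_step_gen L hodd M hT _ _ h3 f hf.toDegTwo ?_ ?_
    · rintro 𝔓 ⟨v, hv, hv'⟩
      refine ⟨vr_finPrime v 𝔓 hv, ?_⟩
      rcases hv' with hv' | hv'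
      · rcases hf.odd v hv' with h4 | h4
        · exact Or.inl (h4 𝔓 hv)
        · refine Or.inr ⟨fun h5 => hv' ?_, hone 𝔓 (h4 𝔓 hv)⟩
          rw [← hv.2, Ideal.mem_comap, map_ofNat]
          exact h5
      · exact Or.inl (hf.etale v hv' 𝔓 hv)
    · exact fun e he s hse => hf.real e s he.1 hse
  obtain ⟨r1, r2, r3⟩ := v4_rank L M hodd hT A m hm h hmul hs
  refine ⟨r1, r2, r3, fun g _ W hW hA => ?_⟩
  have h5 := v4_sign_gen L hodd M A W hW (fun 𝔓 h𝔓 => by
    obtain ⟨v, hv⟩ := v2c_above 𝔓 h𝔓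
    rcases hA v with h6 | ⟨h6, h7⟩
    · exact Or.inl (h6 𝔓 hv)
    · refine Or.inr ⟨hone 𝔓 (h6 𝔓 hv), ?_⟩
      rcases h7 with h7 | h7
      · exact Or.inl (h7 𝔓 hv)
      · exact Or.inr (h7 𝔓 hv)) g
  refine ⟨h5, fun he => ?_⟩
  have h6 := v4r_even L M hodd hT g (he.imp_right fun h7 => by
    obtain ⟨k, hk⟩ := IsPGroup.iff_card.1 h2
    rw [IsGalois.card_aut_eq_finrank] at hk
    have h8 : Module.finrank K M ∣ Module.finrank K F :=
      IntermediateField.finrank_dvd_of_le_right hMF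
    rw [hk] at h8
    obtain ⟨j, -, hj⟩ := (Nat.dvd_prime_pow Nat.prime_two).1 h8
    rw [hj]
    rcases j with _ | j
    · exact absurd (IntermediateField.finrank_eq_one_iff.1 (by rw [hj, pow_zero])) h7
    · exact (even_two).pow_of_ne_zero (Nat.succ_ne_zero j))
  rw [h6.neg_one_pow, one_mul] at h5
  exact ⟨h5, by rw [r3, h5]⟩

end Pool.Agent.H.MP_ac3185_nt
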