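import Pool.Agent.H.MP_ac3185_nt.V4.Quad

set_option autoImplicit false

open NumberField IsDedekindDomain
open scoped Pointwise

namespace Pool.Agent.H.MP_ac3185_nt

universe u

variable {K : Type u} [Field K] [NumberField K] (L : IntermediateField K (AlgebraicClosure K))
  [FiniteDimensional K L]

/-- An element of `selG L ⊤ U P` as an element of `L` whose norm is a square. -/
theorem v4t_base {U : Set (Ideal (𝓞 (AlgebraicClosure K)))} {P : Set (AlgebraicClosure K →+* ℂ)}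
    {a : AlgebraicClosure K} (ha : a ∈ selG L ⊤ U P) :
    ∃ (h : a ∈ L) (d : K), (⟨a, h⟩ : L) ≠ 0 ∧ Algebra.norm K (⟨a, h⟩ : L) = d * d := by
  obtain ⟨h0, h1, ⟨d, hd, hN⟩, -, -⟩ := ha
  rw [inf_top_eq] at h1
  have hm : a ∈ L := vn_mem L h1
  obtain ⟨c, hc⟩ := vn_base (K := K) (a := d) fun s => hd s (Subgroup.mem_top s)
  refine ⟨hm, c, fun h => h0 (congrArg Subtype.val h), ?_⟩
  apply (algebraMap K (AlgebraicClosure K)).injective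
  rw [← v4_norm_top, map_mul, hc]
  exact hN

/-- The class conditions over `K`. -/
theorem v4_base_unr (hL : SameNarrow L) : TrivSel L ⊤ {𝔓 | FinPrime 𝔓} ∅ := by
  intro a ha
  obtain ⟨hm, d, h0, hd⟩ := v4t_base L ha
  obtain ⟨b, hb⟩ := hL.unr ⟨a, hm⟩ h0 ⟨d, hd⟩ fun 𝔓 h𝔓 s hs hsL z hz =>
    ha.2.2.2.1 𝔓 h𝔓 s hs ⟨hsL, Subgroup.mem_top s⟩ z hz
  exact ⟨b, fun s hs => vn_fix L b.2 hs.1, congrArg Subtype.val hb⟩

/-- The even valuations above `2` come from `vu_evenNorm`. -/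
theorem v4_base_pos (hodd : Odd (Module.finrank K L)) (hreal : TotReal L) (hL : SameNarrow L)
    (h2 : ∀ 𝔓 : Ideal (𝓞 (AlgebraicClosure K)), FinPrime 𝔓 → 2 ∈ 𝔓 → OnePlace L 𝔓) :
    TrivSel L ⊤ {𝔓 | FinPrime 𝔓 ∧ 2 ∉ 𝔓} Set.univ := by
  intro a ha
  obtain ⟨hm, d, h0, hd⟩ := v4t_base L ha
  have hd0 : algebraMap K (AlgebraicClosure K) d ≠ 0 := by
    intro h
    have h1 : d = 0 := (algebraMap K (AlgebraicClosure K)).injective (by rw [h, map_zero])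
    rw [h1, mul_zero] at hd
    exact h0 (Algebra.norm_eq_zero_iff.1 hd)
  have heven : ∀ 𝔓 : Ideal (𝓞 (AlgebraicClosure K)), FinPrime 𝔓 → 2 ∈ 𝔓 → EvenAt L 𝔓 a := by
    intro 𝔓 h𝔓 h2𝔓
    obtain ⟨b, hb, hb0, x, y, hx, hy, hxy⟩ := vu_evenNorm L hodd h𝔓 (h2 𝔓 h𝔓 h2𝔓) h0
    rw [hd, map_mul] at hxy
    refine ⟨b / algebraMap K (AlgebraicClosure K) d, div_mem hb (L.algebraMap_mem d),
      div_ne_zero hb0 hd0, x, y, hx, hy, ?_⟩
    field_simp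
    linear_combination hxy
  obtain ⟨b, hb⟩ := hL.pos ⟨a, hm⟩ h0 ⟨d, hd⟩
    (fun e => ha.2.2.2.2 e (Set.mem_univ e) fun x hx =>
      hreal e ⟨x, vn_mem L fun s hs => hx s ⟨hs, Subgroup.mem_top s⟩⟩)
    (fun 𝔓 h𝔓 h2𝔓 s hs hsL z hz =>
      ha.2.2.2.1 𝔓 ⟨h𝔓, h2𝔓⟩ s hs ⟨hsL, Subgroup.mem_top s⟩ z hz) heven
  exact ⟨b, fun s hs => vn_fix L b.2 hs.1, congrArg Subtype.val hb⟩

omit [NumberField K] in
theorem v4t_finPrime {𝔓 : Ideal (𝓞 (AlgebraicClosure K))} (h : FinPrime 𝔓)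
    (g : AlgebraicClosure K ≃ₐ[K] AlgebraicClosure K) : FinPrime (g • 𝔓) := by
  have hp : 𝔓.IsPrime := h.1
  refine ⟨Ideal.IsPrime.smul g, fun h1 => h.2 ?_⟩
  have h2 : g⁻¹ • (g • 𝔓) = 𝔓 := inv_smul_smul g 𝔓
  rw [← h2, h1]
  exact Ideal.smul_bot g⁻¹

omit [NumberField K] in
/-- The sets of primes and of embeddings are stable. -/
theorem v4_stable_all : StableU (K := K) {𝔓 | FinPrime 𝔓} :=
  fun g _ h => v4t_finPrime h g

omit [NumberField K] in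
theorem v4_stable_odd : StableU (K := K) {𝔓 | FinPrime 𝔓 ∧ 2 ∉ 𝔓} := by
  intro g 𝔓 h
  refine ⟨v4t_finPrime h.1 g, fun h1 => h.2 ?_⟩
  have h2 : galInt g (2 : 𝓞 (AlgebraicClosure K)) = 2 := by
    show g • (2 : 𝓞 (AlgebraicClosure K)) = 2
    rw [← one_add_one_eq_two, smul_add, smul_one]
  rw [← h2] at h1
  exact (pla_mem 𝔓 g 2).1 h1

end Pool.Agent.H.MP_ac3185_nt
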