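import Pool.Agent.H.MP_ac3185_nt.V4.TowerA
import Pool.Agent.H.MP_ac3185_nt.V4.TowerB

/-! The class condition in the fields contained in a Galois `2`-extension of `K`: see `TowerA` for the
induction and `TowerB` for the class conditions over `K`. -/
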