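import Pool.Agent.H.MP_ac3185_nt.V4.Quad

/-! The class condition in the fields contained in a Galois `2`-extension of `K`: the induction. -/

set_option autoImplicit false

open NumberField IsDedekindDomain

namespace Pool.Agent.H.MP_ac3185_nt

universe u

/-- In a `2`-group `G / N` a proper subgroup `H / N` is contained in a subgroup of index `2`. -/
theorem TowerA_group {A : Type*} [Group A] (N H G : Subgroup A) [N.Normal] (hNH : N ≤ H)
    (hHG : H ≤ G) {k n : ℕ} (hn : N.relIndex H = 2 ^ n) (hk : N.relIndex G = 2 ^ (k + 1))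
    (hnk : n ≤ k) :
    ∃ G' : Subgroup A, H ≤ G' ∧ G' ≤ G ∧ N.relIndex G' = 2 ^ k ∧
      ∀ s ∈ G, ∀ t ∈ G, s ∉ G' → t ∉ G' → s * t ∈ G' := by
  classical
  have hcard : Nat.card (G ⧸ N.subgroupOf G) = 2 ^ (k + 1) := hk
  have : Finite (G ⧸ N.subgroupOf G) := Nat.finite_of_card_ne_zero (by rw [hcard]; positivity)
  have hHb : Nat.card ((H.subgroupOf G).map (QuotientGroup.mk' (N.subgroupOf G))) = 2 ^ n := by
    rw [← Subgroup.relIndex_ker, QuotientGroup.ker_mk', Subgroup.relIndex_subgroupOf hHG, hn]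
  obtain ⟨B, hB, hHB⟩ := Sylow.exists_subgroup_card_pow_prime_le (p := 2) (n := n) (m := k)
    (by rw [hcard]; exact pow_dvd_pow 2 (Nat.le_succ k)) _ hHb hnk
  have hidx : B.index = 2 := by
    have h1 := B.card_mul_index
    rw [hB, hcard, pow_succ] at h1
    exact Nat.eq_of_mul_eq_mul_left (by positivity) h1
  let G1 : Subgroup G := B.comap (QuotientGroup.mk' (N.subgroupOf G))
  have hidx1 : G1.index = 2 := by
    rw [← hidx]
    exact Subgroup.index_comap_of_surjective _ (QuotientGroup.mk'_surjective _)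
  have hsub : (G1.map G.subtype).subgroupOf G = G1 :=
    Subgroup.comap_map_eq_self_of_injective G.subtype_injective G1
  have hmem : ∀ (s : A) (hs : s ∈ G), s ∈ G1.map G.subtype ↔ (⟨s, hs⟩ : G) ∈ G1 := by
    intro s hs
    have : (⟨s, hs⟩ : G) ∈ (G1.map G.subtype).subgroupOf G ↔ s ∈ G1.map G.subtype :=
      Subgroup.mem_subgroupOf
    rw [← this, hsub]
  have hHle : H ≤ G1.map G.subtype := by
    intro s hs
    rw [hmem s (hHG hs)]
    exact hHB (Subgroup.mem_map_of_mem _ (Subgroup.mem_subgroupOf.2 hs))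
  have hGle : G1.map G.subtype ≤ G := G.map_subtype_le G1
  refine ⟨G1.map G.subtype, hHle, hGle, ?_, ?_⟩
  · have h1 := Subgroup.relIndex_mul_relIndex N (G1.map G.subtype) G (hNH.trans hHle) hGle
    have h2 : (G1.map G.subtype).relIndex G = 2 := by
      rw [Subgroup.relIndex, hsub, hidx1]
    rw [h2, hk, pow_succ] at h1
    exact Nat.eq_of_mul_eq_mul_right (by norm_num) h1
  · intro s hs t ht hs' ht'
    rw [hmem s hs] at hs'
    rw [hmem t ht] at ht'
    rw [hmem (s * t) (G.mul_mem hs ht)]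
    have : (⟨s * t, G.mul_mem hs ht⟩ : G) = ⟨s, hs⟩ * ⟨t, ht⟩ := rfl
    rw [this, Subgroup.mul_mem_iff_of_index_two hidx1]
    exact iff_of_false hs' ht'

variable {K : Type u} [Field K] [NumberField K] (L : IntermediateField K (AlgebraicClosure K))
  [FiniteDimensional K L]

/-- Induction over a chain of subgroups from the Galois group to `Gal(Kbar/M)`, each of index `2` in
the preceding one: in the `2`-group `Gal(F/K)` a subgroup which contains the image of `Gal(Kbar/M)`
properly has a subgroup of index `2` which contains this image. The steps are `v4_trans` (for `G`,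
and for `decompGrp K 𝔓 ⊓ G`) and `v4_quad`. -/
theorem v4_tower (hodd : Odd (Module.finrank K L))
    (M F : IntermediateField K (AlgebraicClosure K)) [FiniteDimensional K M]
    [FiniteDimensional K F] [IsGalois K F] (hMF : M ≤ F) (h2 : IsPGroup 2 (F ≃ₐ[K] F))
    (U : Set (Ideal (𝓞 (AlgebraicClosure K)))) (P : Set (AlgebraicClosure K →+* ℂ))
    (hUs : StableU U) (hPs : StableP P)
    (hU : ∀ 𝔓 ∈ U, OnePlace L 𝔓 ∨ inertia K 𝔓 ⊆
      (M.fixingSubgroup : Set (AlgebraicClosure K ≃ₐ[K] AlgebraicClosure K)))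
    (hP : ∀ e ∈ P, ∀ s : AlgebraicClosure K ≃ₐ[K] AlgebraicClosure K,
      (∀ z, e (s z) = starRingEnd ℂ (e z)) → s ∈ M.fixingSubgroup)
    (h : TrivSel L ⊤ U P) :
    TransOn L M.fixingSubgroup ∧
      (∀ 𝔓, OnePlace L 𝔓 → TransOn L (decompGrp K 𝔓 ⊓ M.fixingSubgroup)) ∧
      TrivSel L M.fixingSubgroup U P := by
  have hker : (AlgEquiv.restrictNormalHom (F := K) (K₁ := AlgebraicClosure K) F).ker
      = F.fixingSubgroup := F.restrictNormalHom_ker
  have hnormal : F.fixingSubgroup.Normal := hker ▸ MonoidHom.normal_ker _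
  have hle : F.fixingSubgroup ≤ M.fixingSubgroup :=
    IntermediateField.fixingSubgroup_antitone hMF
  obtain ⟨k, hk⟩ := IsPGroup.iff_card.1 h2
  have htop : F.fixingSubgroup.relIndex ⊤ = 2 ^ k := by
    rw [Subgroup.relIndex_top_right, ← hker, Subgroup.index_ker,
      MonoidHom.range_eq_top.2 (AlgEquiv.restrictNormalHom_surjective (AlgebraicClosure K)),
      Subgroup.card_top, hk]
  have hmul := Subgroup.relIndex_mul_relIndex F.fixingSubgroup M.fixingSubgroup ⊤ hle le_top
  obtain ⟨n, hnk, hn⟩ := (Nat.dvd_prime_pow Nat.prime_two).1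
    (htop ▸ Dvd.intro _ hmul : F.fixingSubgroup.relIndex M.fixingSubgroup ∣ 2 ^ k)
  have key : ∀ (j : ℕ) (G : Subgroup (AlgebraicClosure K ≃ₐ[K] AlgebraicClosure K)),
      M.fixingSubgroup ≤ G → F.fixingSubgroup.relIndex G = 2 ^ (n + j) → TransOn L G →
      (∀ 𝔓, OnePlace L 𝔓 → TransOn L (decompGrp K 𝔓 ⊓ G)) → TrivSel L G U P →
      TransOn L M.fixingSubgroup ∧
      (∀ 𝔓, OnePlace L 𝔓 → TransOn L (decompGrp K 𝔓 ⊓ M.fixingSubgroup)) ∧
      TrivSel L M.fixingSubgroup U P := by
    intro j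
    induction j with
    | zero =>
      intro G hMG hj hT hTd hS
      have h1 := Subgroup.relIndex_mul_relIndex F.fixingSubgroup M.fixingSubgroup G hle hMG
      rw [hn, hj, add_zero] at h1
      have h3 : M.fixingSubgroup.relIndex G = 1 :=
        Nat.eq_of_mul_eq_mul_left (pow_pos (by norm_num : 0 < 2) n) (by rw [h1, mul_one])
      have hG : G = M.fixingSubgroup := le_antisymm (Subgroup.relIndex_eq_one.1 h3) hMG
      subst hG
      exact ⟨hT, hTd, hS⟩
    | succ j ih =>
      intro G hMG hj hT hTd hS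
      obtain ⟨G', hMG', hG', hj', hi⟩ := TowerA_group F.fixingSubgroup M.fixingSubgroup G hle hMG
        hn (k := n + j) (by rw [hj]; rfl) (Nat.le_add_right n j)
      have hi2 : IndexTwo G' G := hi
      refine ih G' hMG' hj' ?_ ?_ ?_
      · have := v4_trans L hodd G G' hT hi2
        rwa [inf_eq_right.2 hG'] at this
      · intro 𝔓 h𝔓
        have h3 : IndexTwo G' (decompGrp K 𝔓 ⊓ G) := fun s hs t ht => hi2 s hs.2 t ht.2
        have := v4_trans L hodd (decompGrp K 𝔓 ⊓ G) G' (hTd 𝔓 h𝔓) h3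
        rwa [inf_assoc, inf_eq_right.2 hG'] at this
      · refine v4_quad L hodd G' G hG' hi2 M hMG' hT U P hUs hPs ?_ ?_ hS
        · intro 𝔓 h𝔓
          rcases hU 𝔓 h𝔓 with h4 | h4
          · exact Or.inl (hTd 𝔓 h4)
          · exact Or.inr fun s hs _ => hMG' (h4 hs)
        · intro e he s _ hs
          exact hMG' (hP e he s hs)
  refine key (k - n) ⊤ le_top ?_ (fun s => ⟨s, Subgroup.mem_top s, by simp⟩)
    (fun 𝔓 h𝔓 s => ?_) h
  · rw [htop, Nat.add_sub_cancel' hnk]
  · obtain ⟨t, ht, hts⟩ := h𝔓 s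
    exact ⟨t, ⟨ht, Subgroup.mem_top t⟩, hts⟩

end Pool.Agent.H.MP_ac3185_nt
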